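import Mathlib
import Pool.Agent.W2helper24.TQ.Fin
import Pool.Agent.W2helper8.TQ.E7
import Pool.Agent.W2helper95.TQ.E3
import Pool.Agent.W2helper60.TQ.E1
import Pool.Agent.W2helper55.TQ.Dsc
import Pool.Agent.Y667.BKP.Main
import Pool.Agent.W2helper2.TQ.A8

/-!
# The `3`-adic regulator of the twists of `y² = x³ - 1`, lemmas
-/

set_option autoImplicit false

namespace Pool.Agent.W2helper2.RG

open NumberField IsDedekindDomain WeierstrassCurve IntermediateField
open Pool.Agent.W2helper24.TQ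
open Pool.Agent.W2helper55.TQ
open Pool.Agent.TH841.NF.D (Sha)
open Pool.Agent.Y667.BKP (H1f)
open Pool.Agent.Y700 (VR)
open scoped Classical

/-- a change of variables -/
lemma vr_of_change {F : Type} [Field F] (W : WeierstrassCurve F) (C : VariableChange F) :
    VR W (C • W) (C.u : F) C.r C.s C.t where
  u0 := C.u.ne_zero
  e1 := by
    have h : (C.u : F) * ((C.u⁻¹ : Fˣ) : F) = 1 := C.u.mul_inv
    rw [variableChange_a₁]
    linear_combination (W.a₁ + 2 * C.s) * h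
  e2 := by
    have h : (C.u : F) * ((C.u⁻¹ : Fˣ) : F) = 1 := C.u.mul_inv
    have h2 : (C.u : F) ^ 2 * ((C.u⁻¹ : Fˣ) : F) ^ 2 = 1 := by rw [← mul_pow, h, one_pow]
    rw [variableChange_a₂]
    linear_combination (W.a₂ - C.s * W.a₁ + 3 * C.r - C.s ^ 2) * h2
  e3 := by
    have h : (C.u : F) * ((C.u⁻¹ : Fˣ) : F) = 1 := C.u.mul_inv
    have h2 : (C.u : F) ^ 3 * ((C.u⁻¹ : Fˣ) : F) ^ 3 = 1 := by rw [← mul_pow, h, one_pow]
    rw [variableChange_a₃]
    linear_combination (W.a₃ + C.r * W.a₁ + 2 * C.t) * h2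
  e4 := by
    have h : (C.u : F) * ((C.u⁻¹ : Fˣ) : F) = 1 := C.u.mul_inv
    have h2 : (C.u : F) ^ 4 * ((C.u⁻¹ : Fˣ) : F) ^ 4 = 1 := by rw [← mul_pow, h, one_pow]
    rw [variableChange_a₄]
    linear_combination (W.a₄ - C.s * W.a₃ + 2 * C.r * W.a₂ - (C.t + C.r * C.s) * W.a₁ +
      3 * C.r ^ 2 - 2 * C.s * C.t) * h2
  e6 := by
    have h : (C.u : F) * ((C.u⁻¹ : Fˣ) : F) = 1 := C.u.mul_inv
    have h2 : (C.u : F) ^ 6 * ((C.u⁻¹ : Fˣ) : F) ^ 6 = 1 := by rw [← mul_pow, h, one_pow]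
    rw [variableChange_a₆]
    linear_combination (W.a₆ + C.r * W.a₄ + C.r ^ 2 * W.a₂ + C.r ^ 3 - C.t * W.a₃ - C.t ^ 2 -
      C.r * C.t * W.a₁) * h2

/-- all the conclusions for the curve `W` -/
def Zero {k : Type} [Field k] [NumberField k] (W : WeierstrassCurve k) : Prop :=
  Finite W.toAffine.Point ∧ ¬ 3 ∣ Nat.card W.toAffine.Point ∧
    (∀ (n : ℕ) (x : Sha W), 3 ^ n • x = 0 → x = 0) ∧ ∀ x : H1f 3 W, x = 0

theorem zero_of {k : Type} [Field k] [NumberField k] {W : WeierstrassCurve k}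
    (h1 : Finite W.toAffine.Point) (h2 : ¬ 3 ∣ Nat.card W.toAffine.Point)
    (h3 : ∀ x : Sha W, 3 • x = 0 → x = 0) : Zero W := by
  have h4 : ∀ (n : ℕ) (x : Sha W), 3 ^ n • x = 0 → x = 0 := by
    intro n
    induction n with
    | zero =>
      intro x hx
      simpa using hx
    | succ n ih =>
      intro x hx
      apply h3
      apply ih
      rw [smul_smul, ← pow_succ]
      exact hx
  refine ⟨h1, h2, h4, ?_⟩
  exact Pool.Agent.Y667.BKP.h1f_zero Nat.prime_three h1 0 (fun n x hx => by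
    rw [pow_zero, one_smul]
    exact h4 n x hx)

/-- **the theorem**: `F / K` of degree `3 ^ n`, `W` over `k`, isomorphic to `y² = x³ - 1` over `F` -/
theorem main {K F k : Type} [Field K] [NumberField K] [IsCyclotomicExtension {3} ℚ K]
    [Field F] [NumberField F] [Algebra K F] [IsGalois K F] [Field k] [NumberField k] [Algebra k F]
    [Normal k F] {n : ℕ} (hn : Module.finrank K F = 3 ^ n) (hR : Ram K F) {W : WeierstrassCurve k}
    {u r s t : F} (hW : VR (W.baseChange F) (Em F) u r s t) : Zero W := by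
  obtain ⟨h1, h2⟩ := A10 K F n hn hR
  have h3 := A8 K F n hn hR
  obtain ⟨h4, h5⟩ := pts_down_vr hW (disc_m F) h1
  exact zero_of h4 (fun h => h2 (h.trans h5)) fun y hy => sha_down_vr hW (disc_m F)
    ((Nat.Prime.coprime_iff_not_dvd (by norm_num)).2 h2) h3 y hy

/-! ## the field `Om` -/

theorem E7 : P_E7 := Pool.Agent.W2helper8.TQE7.piece_of Pool.Agent.W2helper60.TQ.P_E1_holds
  Pool.Agent.W2helper95.TQ.E3.piece

lemma om_le : Om ≤ Ec := by
  unfold Om
  rw [adjoin_le_iff]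
  rintro z (hz | hz | hz)
  · exact root_mem_Ec (n := 2) (a := -3) (by norm_num) (by
      rw [show z ^ 2 = -3 from hz]
      norm_num)
  · obtain ⟨D, -, hz⟩ := hz
    exact root_mem_Ec (n := 3) (a := (D : ℚ)) (by norm_num) (by rw [hz]; simp)
  · obtain ⟨-, m, ⟨hm, -⟩, hz⟩ := hz
    have hle : adjoin ℚ {ζ : ℂ | ζ ^ m = 1} ≤ Ec := by
      rw [adjoin_le_iff]
      intro ζ hζ
      exact root_mem_Ec hm (a := 1) (by rw [Rat.cast_one]; exact hζ)
    exact hle hz

/-- the embeddings preserve `Om` -/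
lemma emb_om (g : Ec →ₐ[ℚ] ℂ) {z : Ec} (hz : (z : ℂ) ∈ Om) : g z ∈ Om := by
  have h0 : Om ≤ (Om.comap g).map Ec.val := by
    have h1 : ∀ S : Set ℂ, S ⊆ Ec → (∀ x : Ec, (x : ℂ) ∈ S → g x ∈ Om) →
        adjoin ℚ S ≤ (Om.comap g).map Ec.val := by
      intro S hS h
      rw [adjoin_le_iff]
      intro x hx
      exact ⟨⟨x, hS hx⟩, h ⟨x, hS hx⟩ hx, rfl⟩
    refine h1 _ (fun x hx => om_le (subset_adjoin _ _ hx)) ?_
    rintro x (hx | hx | hx)
    · refine subset_adjoin _ _ (Or.inl ?_)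
      have h2 : x ^ 2 = -3 := Subtype.ext (by
        rw [show ((x ^ 2 : Ec) : ℂ) = (x : ℂ) ^ 2 from rfl, show (x : ℂ) ^ 2 = -3 from hx]
        rfl)
      show g x ^ 2 = -3
      rw [← map_pow, h2, map_neg, map_ofNat]
    · obtain ⟨D, hD, hx⟩ := hx
      refine subset_adjoin _ _ (Or.inr (Or.inl ⟨D, hD, ?_⟩))
      have h2 : x ^ 3 = (D : Ec) := Subtype.ext hx
      rw [← map_pow, h2, map_natCast]
    · obtain ⟨⟨n, hn⟩, m, hm, hx⟩ := hx
      refine subset_adjoin _ _ (Or.inr (Or.inr ⟨⟨n, ?_⟩, m, hm, ?_⟩))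
      · rw [← hn, minpoly.algHom_eq g g.injective,
          ← minpoly.algebraMap_eq (A := ℚ) (B := Ec) (B' := ℂ)
            (FaithfulSMul.algebraMap_injective Ec ℂ) x]
        rfl
      · have h3 : adjoin ℚ {ζ : ℂ | ζ ^ m = 1} ≤
            ((adjoin ℚ {ζ : ℂ | ζ ^ m = 1}).comap g).map Ec.val := by
          rw [adjoin_le_iff]
          intro ζ hζ
          have hζE : ζ ∈ Ec := root_mem_Ec hm.1 (a := 1) (by rw [Rat.cast_one]; exact hζ)
          refine ⟨⟨ζ, hζE⟩, ?_, rfl⟩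
          refine subset_adjoin _ _ ?_
          have h4 : (⟨ζ, hζE⟩ : Ec) ^ m = 1 := Subtype.ext hζ
          show g ⟨ζ, hζE⟩ ^ m = 1
          rw [← map_pow, h4, map_one]
        obtain ⟨y, hy, hyx⟩ := h3 hx
        have h5 : y = x := Subtype.ext hyx
        rw [← h5]
        exact hy
  obtain ⟨y, hy, hyz⟩ := h0 hz
  have h5 : y = z := Subtype.ext hyz
  rw [← h5]
  exact hy

/-- the normal closure of a number field in `Om` is in `Om` -/
lemma closure_le {F : IntermediateField ℚ ℂ} (hF : F ≤ Om) : normalClosure ℚ F ℂ ≤ Om := by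
  unfold normalClosure
  refine iSup_le fun f => ?_
  have hFE : F ≤ Ec := hF.trans om_le
  let : Algebra F Ec := (inclusion hFE).toRingHom.toAlgebra
  have t1 : IsScalarTower ℚ F Ec := IsScalarTower.of_algebraMap_eq fun x => rfl
  have a1 : Algebra.IsAlgebraic F Ec := Algebra.IsAlgebraic.tower_top (K := ℚ) F
  obtain ⟨g, hg⟩ := IsAlgClosed.surjective_domRestrict_of_isAlgebraic (K := ℚ) (L := F)
    (M := ℂ) (E := Ec) f
  rintro - ⟨x, rfl⟩
  have h1 : g (algebraMap F Ec x) = f x := DFunLike.congr_fun hg x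
  have h2 : g (algebraMap F Ec x) ∈ Om := emb_om g (hF x.2)
  rw [h1] at h2
  exact h2

lemma kw_le_om : Kw ≤ Om := by
  unfold Kw
  rw [adjoin_simple_le_iff]
  have h1 : 2 * wC + 1 ∈ Om := subset_adjoin _ _ (Or.inl (by
    show (2 * wC + 1) ^ 2 = -3
    linear_combination 4 * wC_rel))
  have h2 : wC = (2 * wC + 1 - 1) / 2 := by ring
  rw [h2]
  exact div_mem (sub_mem h1 (one_mem _)) (ofNat_mem _ 2)

lemma alg_of_om {z : ℂ} (hz : z ∈ Om) : IsAlgebraic ℚ z := mem_Ec.1 (om_le hz)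

/-- **the theorem** for the number fields contained in `Om` -/
theorem main_om (k : IntermediateField ℚ ℂ) [NumberField k] (hk : k ≤ Om) (W : WeierstrassCurve k)
    (C : VariableChange ℂ) (hu : (C.u : ℂ) ∈ Om) (hr : C.r ∈ Om) (hs : C.s ∈ Om) (ht : C.t ∈ Om)
    (hC : C • (W.baseChange ℂ) = Em ℂ) : Zero W := by
  let F0 : IntermediateField ℚ ℂ := (k ⊔ Kw) ⊔ adjoin ℚ {(C.u : ℂ), C.r, C.s, C.t}
  have hF0 : F0 ≤ Om := by
    refine sup_le (sup_le hk kw_le_om) ?_
    rw [adjoin_le_iff]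
    rintro z (rfl | rfl | rfl | rfl)
    · exact hu
    · exact hr
    · exact hs
    · exact ht
  have f0 : FiniteDimensional ℚ k := inferInstance
  have f1 : FiniteDimensional ℚ (k ⊔ Kw : IntermediateField ℚ ℂ) :=
    IntermediateField.finiteDimensional_sup k Kw
  have f2 : FiniteDimensional ℚ (adjoin ℚ {(C.u : ℂ), C.r, C.s, C.t}) := by
    refine finiteDimensional_adjoin fun z hz => ?_
    have : z ∈ Om := by
      rcases hz with rfl | rfl | rfl | rfl
      · exact hu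
      · exact hr
      · exact hs
      · exact ht
    exact (alg_of_om this).isIntegral
  have f3 : FiniteDimensional ℚ F0 := IntermediateField.finiteDimensional_sup _ _
  let F : IntermediateField ℚ ℂ := normalClosure ℚ F0 ℂ
  have hF : F ≤ Om := closure_le hF0
  have hF0F : F0 ≤ F := F0.le_normalClosure
  have n1 : IsNormalClosure ℚ F0 F := Algebra.IsAlgebraic.isNormalClosure_normalClosure fun x =>
    IsAlgClosed.splits _
  have n2 : Normal ℚ F := n1.normal
  have f4 : FiniteDimensional ℚ F := normalClosure.is_finiteDimensional ℚ F0 ℂ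
  have nf : NumberField F := ⟨⟩
  have hkF : k ≤ F := (le_sup_left.trans le_sup_left).trans hF0F
  have hKF : Kw ≤ F := (le_sup_right.trans le_sup_left).trans hF0F
  have huF : (C.u : ℂ) ∈ F := hF0F (le_sup_right (a := k ⊔ Kw)
    (subset_adjoin _ _ (by simp)))
  have hrF : C.r ∈ F := hF0F (le_sup_right (a := k ⊔ Kw) (subset_adjoin _ _ (by simp)))
  have hsF : C.s ∈ F := hF0F (le_sup_right (a := k ⊔ Kw) (subset_adjoin _ _ (by simp)))
  have htF : C.t ∈ F := hF0F (le_sup_right (a := k ⊔ Kw) (subset_adjoin _ _ (by simp)))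
  let : Algebra Kw F := (inclusion hKF).toRingHom.toAlgebra
  let : Algebra k F := (inclusion hkF).toRingHom.toAlgebra
  have t1 : IsScalarTower ℚ k F := IsScalarTower.of_algebraMap_eq fun x => rfl
  have t2 : IsScalarTower k F ℂ := IsScalarTower.of_algebraMap_eq fun x => rfl
  have n3 : Normal k F := Normal.tower_top_of_normal ℚ k F
  obtain ⟨g1, ⟨n, hn⟩, c, art, hc, hart⟩ := exists_art E7 hF hKF
  have := g1
  refine main hn (ram_of_art hart hc) (W := W) (u := ⟨C.u, huF⟩) (r := ⟨C.r, hrF⟩)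
    (s := ⟨C.s, hsF⟩) (t := ⟨C.t, htF⟩) ?_
  have h1 := vr_of_change (W.baseChange ℂ) C
  rw [hC] at h1
  have h2 : ∀ x y : F, (x : ℂ) = y → x = y := fun x y h => Subtype.ext h
  exact {
    u0 := fun h => C.u.ne_zero (congrArg (fun x : F => (x : ℂ)) h)
    e1 := h2 _ _ h1.e1
    e2 := h2 _ _ h1.e2
    e3 := h2 _ _ h1.e3
    e4 := h2 _ _ h1.e4
    e6 := h2 _ _ h1.e6 }

end Pool.Agent.W2helper2.RG
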