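import Mathlib
import Pool.Agent.TH841.SH.ShaDef

/-!
# Project RG (owner helper2, MP_76188c_nt): statements of the pieces (light part)

THEOREM.  `K = ℚ(ω)`, `F / K` Galois of degree `3 ^ n`, ramified only at primes not above `3` in whose
residue fields (of `K`) `-1` is not a square (`Ram K F` of project TQ), `k` a subfield of `F`,
`E_1, ..., E_n` curves `y² = x³ - (a x + b)²` over `k` whose `3`-adic Tate modules are unramified above
the primes `p ∤ 6` with `p ≢ 7 mod 12`, `n` odd, `i ≥ n`.  Then every class of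
`H¹(k, V_3 E_1 ⊗ ... ⊗ V_3 E_n (-i))` which is trivial on the decomposition groups above `3` and
unramified above these `p` is zero.  (So `H¹_st(k, H^m(X, ℚ_3(j))) = 0` for all odd `m`, all `j ≤ 0`
and all products `X` of such curves.)

Idea: `χ` = the quadratic character of `F(I)/F`, `I² = -1`.  The residual representation is a
successive extension of copies of `𝔽_3(χ)`, and the residual classes vanish (`P_R`) because a
Kummer element `z ∈ L = F(I)` with all valuations divisible by three which is a cube in the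
completions above three, and with `z σ(z)` a cube, is a cube (pieces A4, A5, A7 of TQ).
-/

set_option autoImplicit false

namespace Pool.Agent.W2helper2.RG

open NumberField IsDedekindDomain WeierstrassCurve
open Pool.Agent.TH841.SH.D (Gal Pt act)
open scoped Classical

/-! ## places -/

section dec
variable {k : Type} [Field k] {p : ℕ} [Fact p.Prime]

/-- the decomposition group of the place given by the embedding `ι` -/
def Dec (ι : AlgebraicClosure k →+* PadicAlgCl p) : Set (Gal k) :=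
  {σ | ∃ τ : PadicAlgCl p ≃ₐ[ℚ_[p]] PadicAlgCl p, ∀ x, τ (ι x) = ι (σ x)}

/-- the inertia group of the place given by the embedding `ι` -/
def Inr (ι : AlgebraicClosure k →+* PadicAlgCl p) : Set (Gal k) :=
  {σ | ∃ τ : PadicAlgCl p ≃ₐ[ℚ_[p]] PadicAlgCl p, (∀ x, τ (ι x) = ι (σ x)) ∧
    ∀ z : PadicAlgCl p, ‖z‖ ≤ 1 → ‖τ z - z‖ < 1}

end dec

/-- the embedding `ι` induces the prime `w` of `L` -/
def Cmp {F L : Type} [Field F] [Field L] [NumberField L] [Algebra F L] {p : ℕ} [Fact p.Prime]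
    (e : L →ₐ[F] AlgebraicClosure F) (ι : AlgebraicClosure F →+* PadicAlgCl p)
    (w : HeightOneSpectrum (𝓞 L)) : Prop :=
  ∀ x y : L, ‖ι (e x)‖ ≤ ‖ι (e y)‖ ↔ w.valuation L x ≤ w.valuation L y

/-- PIECE PL: embeddings and primes.
Proof. (1) Given `w`, choose a maximal ideal `Q` of `𝓞 (AlgebraicClosure F)` with `e⁻¹ Q = w` (going up,
`Ideal.exists_ideal_over_maximal_of_isIntegral`-like; make `𝓞 (AlgebraicClosure F)` an `𝓞 L`-algebra by
`e`).  `Pool.Agent.W528.Ord.exists_tau Q` gives `ι` with `x ∈ Q ↔ ‖ι x‖ < 1` (and `‖ι x‖ ≤ 1` for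
integral `x`: `norm_le_one_of_integral`).  (2) Given `ι`, `w = {x ∈ 𝓞 L | ‖ι (e x)‖ < 1}` is a prime which
contains `p`, so it is not zero.  In both cases: if `w.valuation x = 1`, then `x = a / b` with
`a, b ∈ 𝓞 L \ w` (Mathlib: `HeightOneSpectrum.valuation_le_one_iff`, or multiply by a power of an element;
the two valuation subrings of `L` are the localization at `w`, which is a discrete valuation ring, so they
are equal), so `‖ι (e x)‖ = 1`; if `w.valuation x < 1` then `‖ι (e x)‖ < 1`. -/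
def P_PL : Prop := ∀ (F L : Type) [Field F] [NumberField F] [Field L] [NumberField L] [Algebra F L]
  (e : L →ₐ[F] AlgebraicClosure F) (p : ℕ) [Fact p.Prime],
  (∀ w : HeightOneSpectrum (𝓞 L), (p : 𝓞 L) ∈ w.asIdeal →
    ∃ ι : AlgebraicClosure F →+* PadicAlgCl p, Cmp e ι w) ∧
  (∀ ι : AlgebraicClosure F →+* PadicAlgCl p,
    ∃ w : HeightOneSpectrum (𝓞 L), (p : 𝓞 L) ∈ w.asIdeal ∧ Cmp e ι w)

/-- PIECE DEN: elements fixed by the decomposition group are approximated by elements of `L`.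
Proof. Let `τ ∈ Aut(PadicAlgCl p / ℚ_p)` fix `ι (e L)`.  There is `σ ∈ Gal F` with `τ ∘ ι = ι ∘ σ` (normality;
as `exists_restr` in `Pool/Agent/W2helper2/TQ/Gal.lean`), it is in `Dec ι` and fixes `e L` (`ι` injective),
so `σ x = x` and `τ (ι x) = ι x`.  By `InfiniteGalois.fixedField_fixingSubgroup` (as `mem_kur` in
`Pool/Agent/Y715/Nr.lean`) `ι x` is in `IntermediateField.adjoin ℚ_[p] (ι (e L))`, and the elements of this
field are `∑ a_j ι (e x_j)` (`a_j ∈ ℚ_p`): everything is algebraic, so the field is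
`Algebra.adjoin`, the span of the submonoid `ι (e L)`.  Approximate the `a_j` by rational numbers. -/
def P_DEN : Prop := ∀ (F L : Type) [Field F] [NumberField F] [Field L] [NumberField L] [Algebra F L]
  (e : L →ₐ[F] AlgebraicClosure F) (p : ℕ) [Fact p.Prime]
  (ι : AlgebraicClosure F →+* PadicAlgCl p) (x : AlgebraicClosure F),
  (∀ σ ∈ Dec ι, (∀ y : L, σ (e y) = e y) → σ x = x) →
  ∀ ε : ℝ, 0 < ε → ∃ t : L, ‖ι x - ι (e t)‖ < ε

/-! ## `3`-adic representations -/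

section rep
variable {G J : Type} [Group G] [Fintype J]

/-- the action of a matrix with entries in `ℤ_3` on `ℚ_3 ^ J` -/
noncomputable def ac (A : Matrix J J ℤ_[3]) (v : J → ℚ_[3]) : J → ℚ_[3] :=
  fun α => ∑ β, (A α β : ℚ_[3]) * v β

/-- continuous cocycles -/
structure Coc [TopologicalSpace G] [DecidableEq J] (ρ : G →* Matrix J J ℤ_[3])
    (c : G → J → ℚ_[3]) : Prop where
  cont : Continuous c
  mul : ∀ σ τ, c (σ * τ) = c σ + ac (ρ σ) (c τ)

/-- `c` is a coboundary on the subset `S` -/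
def Cob [DecidableEq J] (ρ : G →* Matrix J J ℤ_[3]) (S : Set G) (c : G → J → ℚ_[3]) : Prop :=
  ∃ y : J → ℚ_[3], ∀ σ ∈ S, c σ = ac (ρ σ) y - y

/-- the representation is triangular modulo `3` with the diagonal `χ`; `pl σ` means `χ σ = 1` -/
structure Tri [DecidableEq J] (pl : G → Prop) (ρ : G →* Matrix J J ℤ_[3]) (wt : J → ℕ) : Prop where
  off : ∀ σ α β, α ≠ β → wt β ≤ wt α → (3 : ℤ_[3]) ∣ ρ σ α β
  one : ∀ σ, pl σ → ∀ α, (3 : ℤ_[3]) ∣ ρ σ α α - 1
  neg : ∀ σ, ¬ pl σ → ∀ α, (3 : ℤ_[3]) ∣ ρ σ α α + 1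

end rep

/-- the residual classes vanish -/
def Resid {G : Type} [Group G] [TopologicalSpace G] (pl : G → Prop) (𝒟 : Set (Set G)) (N : Set G) :
    Prop :=
  ∀ h : G → ZMod 3, IsLocallyConstant h → (∀ σ τ, pl σ → h (σ * τ) = h σ + h τ) →
    (∀ σ τ, ¬ pl σ → h (σ * τ) = h σ - h τ) → (∀ S ∈ 𝒟, ∀ σ ∈ S, pl σ → h σ = 0) →
    (∀ σ ∈ N, h σ = 0) → ∀ σ, pl σ → h σ = 0

/-- PIECE X: from the residual classes to the `3`-adic ones.
Proof. `c` is bounded (compactness), so multiply it by a power of `3` and assume that it has values in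
`ℤ_3 ^ J`.  CLAIM 1: if `S ∈ 𝒟`, `σ₀ ∈ S` with `¬ pl σ₀`, and `u ∈ ℚ_3 ^ J` with `ac (ρ σ₀) u - u` integral, then
`u` is integral (look at a coordinate `α` of maximal norm `> 1` and, among these, of maximal weight: all
the terms `ρ_αβ u_β`, `β ≠ α`, are smaller, and `ρ_αα - 1` is a unit).  CLAIM 2: if `u` is integral and
`(ac (ρ σ₀) u - u)_α ≡ 0 mod 3` for all `α` with `wt α ≥ w`, then `u_α ≡ 0 mod 3` for these `α` (same argument).
CLAIM 3: there is `y ∈ ℤ_3 ^ J` with `c ≡ d y mod 3`: by descending induction on `w` there is `y` such that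
`(c - d y)_α ≡ 0 mod 3` for all `α` with `wt α ≥ w`.  Step: `c' = c - d y`; for `wt α = w`, `α` fixed,
`h = c'_α mod 3` is locally constant with `h (σ τ) = h σ + χ(σ) h τ` (the `β ≠ α` with `ρ_αβ ≢ 0 mod 3` have
`wt β > w`, so `c'_β ≡ 0`); on `S ∈ 𝒟`, `c = d z` with `z` integral (claim 1) and `z - y ≡ 0` in the weights
`> w` (claim 2), so `h σ = (χ σ - 1) (z - y)_α`, which is `0` if `pl σ`; on `N` both `c` and `d y` vanish.  So
by `Resid` `h σ = 0` if `pl σ`, and if `¬ pl σ` then `h σ = h σ₁ = (χ σ - 1) h σ₁` (`= - 2 h σ₁`) for a fixed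
`σ₁` with `¬ pl σ₁`.  Add the vector with the coordinates `h_α(σ₁)` (`wt α = w`) to `y`.
CLAIM 4: `c = d y + 3 c₁` and `c₁` satisfies the hypotheses; so for all `m` there is an integral `y` with
`c ≡ d y mod 3 ^ m`; by compactness of `ℤ_3 ^ J` (nested closed nonempty sets) there is `y` with `c = d y`. -/
def P_X : Prop := ∀ (G J : Type) [Group G] [TopologicalSpace G] [CompactSpace G] [Fintype J]
  [DecidableEq J] (pl : G → Prop) (𝒟 : Set (Set G)) (N : Set G),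
  (∀ σ τ, pl (σ * τ) ↔ (pl σ ↔ pl τ)) → (∃ σ, ¬ pl σ) → (∀ S ∈ 𝒟, ∃ σ ∈ S, ¬ pl σ) →
  Resid pl 𝒟 N →
  ∀ (ρ : G →* Matrix J J ℤ_[3]) (wt : J → ℕ), (∀ α β, Continuous fun σ => ρ σ α β) →
  Tri pl ρ wt → (∀ σ ∈ N, ρ σ = 1) → ∀ c : G → J → ℚ_[3], Coc ρ c → (∀ S ∈ 𝒟, Cob ρ S c) →
  (∀ σ ∈ N, c σ = 0) → Cob ρ Set.univ c

/-- PIECE AV: averaging.  Proof. `H` = the image of `Gal F` in `Gal k` under `σ ↦ φ⁻¹ σ φ`
(`φ : k̄ ≃ F̄` over `k`); it is the stabilizer of `φ⁻¹ F`, of finite index.  `a_σ x = ρ(σ) x - c(σ)` is an action of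
`Gal k` on `ℚ_3 ^ J` by affine maps, `y` is fixed by `H`, and the mean of the `a_τ y`, `τ ∈ Gal k / H`, is
fixed by `Gal k`. -/
def P_AV : Prop := ∀ (k F J : Type) [Field k] [NumberField k] [Field F] [NumberField F] [Algebra k F]
  [Fintype J] [DecidableEq J] (φ : AlgebraicClosure k ≃ₐ[k] AlgebraicClosure F)
  (ρ : Gal k →* Matrix J J ℤ_[3]) (c : Gal k → J → ℚ_[3]), Coc ρ c →
  Cob ρ {σ | ∀ x : F, σ (φ.symm (algebraMap F _ x)) = φ.symm (algebraMap F _ x)} c →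
  Cob ρ Set.univ c

/-! ## tensor products -/

/-- the matrix of `ρ_1(σ) ⊗ ... ⊗ ρ_n(σ) χ(σ)⁻ⁱ` -/
noncomputable def tens {G : Type} [Group G] {n : ℕ} (ρ : Fin n → G →* Matrix (Fin 2) (Fin 2) ℤ_[3])
    (χ : G →* ℤ_[3]ˣ) (i : ℕ) (σ : G) : Matrix (Fin n → Fin 2) (Fin n → Fin 2) ℤ_[3] :=
  Matrix.of fun α β => (((χ σ)⁻¹ ^ i : ℤ_[3]ˣ) : ℤ_[3]) * ∏ k, ρ k σ (α k) (β k)

/-- PIECE TEN: the tensor product is a representation, and it is triangular if the number of the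
factors is odd (weight of `α` = the number of the `k` with `α k = 1`; `ρ_αβ ≢ 0 mod 3` implies
`α k ≤ β k` for all `k`) -/
def P_TEN : Prop := ∀ (G : Type) [Group G] (n : ℕ)
  (ρ : Fin n → G →* Matrix (Fin 2) (Fin 2) ℤ_[3]) (χ : G →* ℤ_[3]ˣ) (i : ℕ),
  tens ρ χ i 1 = 1 ∧ (∀ σ τ, tens ρ χ i (σ * τ) = tens ρ χ i σ * tens ρ χ i τ) ∧
  (∀ σ, (∀ k, ρ k σ = 1) → χ σ = 1 → tens ρ χ i σ = 1) ∧
  ∀ σ, (3 : ℤ_[3]) ∣ (χ σ : ℤ_[3]) - 1 → (∀ k, (3 : ℤ_[3]) ∣ ρ k σ 1 0) →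
    (∀ α β, α ≠ β → (Finset.univ.filter fun k => β k = 1).card ≤
      (Finset.univ.filter fun k => α k = 1).card → (3 : ℤ_[3]) ∣ tens ρ χ i σ α β) ∧
    ((∀ k s, (3 : ℤ_[3]) ∣ ρ k σ s s - 1) → ∀ α, (3 : ℤ_[3]) ∣ tens ρ χ i σ α α - 1) ∧
    (Odd n → (∀ k s, (3 : ℤ_[3]) ∣ ρ k σ s s + 1) → ∀ α, (3 : ℤ_[3]) ∣ tens ρ χ i σ α α + 1)

/-! ## Tate modules -/

/-- `e 0`, `e 1` is a basis of the `3`-adic Tate module of the abelian group `A` -/
structure Bs {A : Type} [AddCommGroup A] (e : Fin 2 → ℕ → A) : Prop where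
  zero : ∀ i, e i 0 = 0
  trp : ∀ i n, (3 : ℤ) • e i (n + 1) = e i n
  span : ∀ (n : ℕ) (P : A), (3 ^ n : ℤ) • P = 0 → ∃ k : Fin 2 → ℤ, P = ∑ i, k i • e i n
  indep : ∀ (n : ℕ) (k : Fin 2 → ℤ), ∑ i, k i • e i n = 0 → ∀ i, (3 ^ n : ℤ) ∣ k i

/-- `M` is the matrix of the endomorphism `f` on the basis `e` of the Tate module -/
def Acts {A : Type} [AddCommGroup A] (e : Fin 2 → ℕ → A) (f : A →+ A)
    (M : Matrix (Fin 2) (Fin 2) ℤ_[3]) : Prop :=
  ∀ (n : ℕ) (k : Fin 2 → Fin 2 → ℤ), (∀ i j, (3 : ℤ_[3]) ^ n ∣ M i j - k i j) →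
    ∀ j, f (e j n) = ∑ i, k i j • e i n

/-- PIECE T1: the representation on the Tate module, abstract.
Proof: port of `Pool/Agent/R384/Mat.lean` (there for `2`, with `e + e`) to `3`. -/
def P_T1 : Prop := ∀ (A G : Type) [AddCommGroup A] [Group G] [TopologicalSpace G]
  (a : G → A →+ A) (P Q : A), (∀ T, a 1 T = T) → (∀ σ τ T, a (σ * τ) T = a σ (a τ T)) →
  (∀ T, IsLocallyConstant fun σ => a σ T) → (∀ T : A, ∃ S : A, (3 : ℤ) • S = T) →
  (3 : ℤ) • P = 0 → (3 : ℤ) • Q = 0 →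
  (∀ T : A, (3 : ℤ) • T = 0 → ∃ x y : ℤ, T = x • P + y • Q) →
  (∀ x y : ℤ, x • P + y • Q = 0 → (3 : ℤ) ∣ x ∧ (3 : ℤ) ∣ y) →
  ∃ (e : Fin 2 → ℕ → A) (ρ : G →* Matrix (Fin 2) (Fin 2) ℤ_[3]),
    Bs e ∧ (∀ σ, Acts e (a σ) (ρ σ)) ∧ e 0 1 = P ∧ e 1 1 = Q ∧
    (∀ i j, Continuous fun σ => ρ σ i j) ∧
    ∀ (σ : G) (s t u : ℤ), a σ P = s • P → a σ Q = t • Q + u • P →
      (3 : ℤ_[3]) ∣ ρ σ 0 0 - s ∧ (3 : ℤ_[3]) ∣ ρ σ 1 0 ∧ (3 : ℤ_[3]) ∣ ρ σ 1 1 - t

/-- the curve `y² = x³ - (a x + b)²` -/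
def Eab {R : Type} [CommRing R] (a b : R) : WeierstrassCurve R := ⟨0, -a ^ 2, 0, -2 * a * b, -b ^ 2⟩

/-- PIECE T2: the points of order three of `y² = x³ - (a x + b)²`.
Proof. Surjectivity of the multiplication by `3` and `9 ≤ #E[3] < 18` (so `9`): the change of variables
`x = X + a² / 3` (`Pool.Agent.Y700.VR.equiv`) and `Pool.Agent.TH954.exists_nsmul_base`, `card_base_lt`
(`Pool/Agent/TH954/STor.lean`).  `P = (0, I b)`: the line `y = I (a x + b)` meets the curve only in `P`.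
`Q = (x, (a x + 3 b) I / θ)`, `θ² = -3`, where `3 x³ - 4 a² x² - 12 a b x - 12 b² = 0` (the `3`-division
polynomial is `x` times this cubic); the three points of this form are a coset of `{0, P, -P}`
(compute `Q + P` with the addition formula), they are permuted by the `σ` with `σ I = I`, `σ θ = θ`, and mapped
to their negatives by the `σ` with `σ I = -I`, `σ θ = θ`. -/
def P_T2 : Prop := ∀ (k : Type) [Field k] [CharZero k] (a b : k), b ≠ 0 → 4 * a ^ 3 + 27 * b ≠ 0 →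
  ∀ I θ : AlgebraicClosure k, I ^ 2 = -1 → θ ^ 2 = -3 →
  (∀ T : Pt (Eab a b) (AlgebraicClosure k), ∃ S, (3 : ℤ) • S = T) ∧
  ∃ P Q : Pt (Eab a b) (AlgebraicClosure k), (3 : ℤ) • P = 0 ∧ (3 : ℤ) • Q = 0 ∧
    (∀ T : Pt (Eab a b) (AlgebraicClosure k), (3 : ℤ) • T = 0 → ∃ x y : ℤ, T = x • P + y • Q) ∧
    (∀ x y : ℤ, x • P + y • Q = 0 → (3 : ℤ) ∣ x ∧ (3 : ℤ) ∣ y) ∧
    ∀ σ : Gal k,
      (σ I = I → act (Eab a b) σ.toAlgHom P = P) ∧ (σ I = -I → act (Eab a b) σ.toAlgHom P = -P) ∧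
      (σ θ = θ → σ I = I → ∃ u : ℤ, act (Eab a b) σ.toAlgHom Q = Q + u • P) ∧
      (σ θ = θ → σ I = -I → ∃ u : ℤ, act (Eab a b) σ.toAlgHom Q = -Q + u • P)

/-- PIECE NOS: no ramification at the places of good reduction.
Proof. Template: `Pool/Agent/Y715/T/Red.lean` (`E1`, `diff_mem`, there for `y² + y = x³`) and `inert_mem` in
`Pool/Agent/Y715/T/Odd.lean`.  Over `C = PadicAlgCl p`, with `|a| ≤ 1`, `|b| = |4 a³ + 27 b| = |2| = |3| = 1`:
the points with `|x| > 1` and `O` form a subgroup `E1`, and for `τ` inert `τ T - T ∈ E1`, `D = ι (σ T) - ι T`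
(two points with the same reduction; the reduced curve is not singular).  `3 ^ n D = 0`; if `D ≠ 0` some
multiple `D' ∈ E1` of `D` has order three, but the points of order three have `x = 0` or
`3 x³ - 4 a² x² - 12 a b x - 12 b² = 0`, so `|x| ≤ 1`: contradiction. -/
def P_NOS : Prop := ∀ (k : Type) [Field k] [NumberField k] (a b : k) (p : ℕ) [Fact p.Prime],
  p ≠ 2 → p ≠ 3 → ∀ ι : AlgebraicClosure k →+* PadicAlgCl p, ‖ι (algebraMap k _ a)‖ ≤ 1 →
  ‖ι (algebraMap k _ b)‖ = 1 → ‖ι (algebraMap k _ (4 * a ^ 3 + 27 * b))‖ = 1 →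
  ∀ σ ∈ Inr ι, ∀ (n : ℕ) (T : Pt (Eab a b) (AlgebraicClosure k)), (3 ^ n : ℤ) • T = 0 →
    act (Eab a b) σ.toAlgHom T = T

/-! ## the cyclotomic character -/

/-- the `3`-adic cyclotomic character -/
noncomputable def cyc (k : Type) [Field k] : Gal k →* ℤ_[3]ˣ :=
  (cyclotomicCharacter (AlgebraicClosure k) 3).comp
    (MulSemiringAction.toRingAut (Gal k) (AlgebraicClosure k))

/-- PIECE CYC.  Proof: port of `Pool/Agent/R384/Cyc.lean`, lines 24-155 (there for `2` over `ℚ(√-7)`);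
`θ² = -3` gives the root of unity `(θ - 1) / 2` of order three. -/
def P_CYC : Prop := ∀ (k : Type) [Field k] [NumberField k], Continuous (cyc k) ∧
  (∀ θ : AlgebraicClosure k, θ ^ 2 = -3 → ∀ σ, σ θ = θ →
    (3 : ℤ_[3]) ∣ ((cyc k σ : ℤ_[3]ˣ) : ℤ_[3]) - 1) ∧
  ∀ (p : ℕ) [Fact p.Prime], p ≠ 3 → ∀ ι : AlgebraicClosure k →+* PadicAlgCl p, ∀ σ ∈ Inr ι,
    cyc k σ = 1

end Pool.Agent.W2helper2.RG
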