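import Mathlib
import Pool.Agent.W2helper24.TQ.Stm2
import Pool.Agent.W237.RK.LDefs
import Pool.Agent.W2helper2.RG.Stm1

/-!
# Project RG (owner helper2, MP_76188c_nt): statements of the pieces which need the fields of project TQ

See `Pool/Agent/W2helper2/RG/Stm1.lean` for the theorem.
-/

set_option autoImplicit false

namespace Pool.Agent.W2helper2.RG

open NumberField IsDedekindDomain WeierstrassCurve
open Pool.Agent.W2helper24.TQ (Ram Tow Sel)
open Pool.Agent.TH841.SH.D (Gal Pt act)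
open scoped Classical

/-- PIECE S1: the primes above `2`, `3` and the `p = 7 mod 12` are stable under `σ`.
Proof. `u` = the prime of `M = ℚ(ζ_12)` below `w`, `v` = the prime of `K` below `w`.  First
`u.valuation M (σM m) = u.valuation M m`: for `p = 3` and `p = 7 mod 12` this is `Tow.stable`
(`Pool/Agent/W2helper24/TQ/A7.lean`), because `-1` is not a square modulo `v` (`p = 7 mod 12`:
`Pool/Agent/W2helper89/TQ/E2.lean` line 133; `p = 3`: the residue field is `𝔽_3`).  For `p = 2`: as in the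
proof of `Tow.stable`, if the conjugate prime `u'` is not `u`, then for every `N` there are `a ∈ u' ^ N`,
`b ∈ u ^ N` with `a + b = 1`, and `x = a i + σM(a i) ∈ 𝓞 K` satisfies `x - i ∈ u ^ N`; for `N` large
`v(x² + 1) ≤ v(4)`, but `v.valuation 2 = exp (-1)` and `(x + 1)² = (x² + 1) + 2 x` with `x` a unit at `v`:
contradiction (the left side has even valuation, the right side the valuation of `2`).
Then `w` and its conjugate `σ w` lie over the same `u`, so `σ w = g w` for some `g ∈ Gal(L/M)`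
(transitivity, `L / M` Galois), and `(g⁻¹ σ) ^ (3 ^ n) = σ` (`σ` commutes with `g`, `g ^ (3 ^ n) = 1`,
`σ² = 1`, `3 ^ n` odd) stabilizes `w`.  Use `val_aut` of A7 to pass between automorphisms and primes. -/
def P_S1 : Prop := ∀ (K F : Type) [Field K] [NumberField K] [IsCyclotomicExtension {3} ℚ K]
  [Field F] [NumberField F] [Algebra K F] [IsGalois K F] (n : ℕ), Module.finrank K F = 3 ^ n →
  ∀ (M L : Type) [Field M] [NumberField M] [IsCyclotomicExtension {12} ℚ M]
    [Algebra K M] [Field L] [NumberField L] [Algebra K L] [Algebra F L] [Algebra M L]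
    [IsScalarTower K F L] [IsScalarTower K M L] [IsGalois M L] (i : M) (σM : M ≃ₐ[K] M)
    (σ : L ≃ₐ[F] L), Tow K F M L i σM σ n →
  ∀ p : ℕ, p.Prime → (p = 2 ∨ p = 3 ∨ p % 12 = 7) →
    ∀ w : HeightOneSpectrum (𝓞 L), (p : 𝓞 L) ∈ w.asIdeal →
      ∀ x : L, w.valuation L (σ x) = w.valuation L x

/-- PIECE KUR: above the other primes `L = F(i)` is contained in the maximal unramified extension `kur p`
of `ℚ_p` (`Pool/Agent/W237/RK/LDefs.lean`).
Proof. `v = {x ∈ 𝓞 F | ‖ι x‖ < 1}`.  `F / K` is unramified at `v`: otherwise (`Ram`) `-1` is not a square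
modulo `v ∩ 𝓞 K`; but if `p = 1 mod 4` then `p ∣ x² + 1` for an integer `x`, and if `p = 11 mod 12` then
`3` is a square modulo `p` (quadratic reciprocity), `3 = r²`, `x = (2 ω + 1) / r` satisfies `x² = -1`.
Let `τ` fix `kur p` (`mem_kur` in `Pool/Agent/Y715/Nr.lean`; `τ` is inert by `inert_of_kur`).  `τ` fixes `ι ω`
(root of unity of order `3`) and `ι i` (order `4`), so it fixes `ι K`, and as `F / K` is normal
`τ ∘ ι = ι ∘ g` on `F` for some `g ∈ Gal(F/K)`, `g x - x ∈ v` for `x ∈ 𝓞 F`; so `g = 1`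
(`Pool.Agent.Y696.unr_g`).  Hence `ι F ⊆ kur p`, and `L` is generated by `F` and `i`. -/
def P_KUR : Prop := ∀ (K F : Type) [Field K] [NumberField K] [IsCyclotomicExtension {3} ℚ K]
  [Field F] [NumberField F] [Algebra K F] [IsGalois K F], Ram K F →
  ∀ (p : ℕ) [Fact p.Prime], p ≠ 2 → p ≠ 3 → p % 12 ≠ 7 →
  ∀ ι : AlgebraicClosure F →+* PadicAlgCl p, ∀ x : F,
    ι (algebraMap F _ x) ∈ Pool.Agent.W237.RK.kur p

/-! ## the residual vanishing (from PL, DEN, S1, KUR; by helper2) -/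

/-- PIECE R: the residual classes vanish -/
def P_R : Prop := ∀ (K F : Type) [Field K] [NumberField K] [IsCyclotomicExtension {3} ℚ K]
  [Field F] [NumberField F] [Algebra K F] [IsGalois K F] (n : ℕ), Module.finrank K F = 3 ^ n →
  Ram K F → ∀ I : AlgebraicClosure F, I ^ 2 = -1 → 
  (∀ ι : AlgebraicClosure F →+* PadicAlgCl 3, ∃ σ ∈ Dec ι, σ I = -I) ∧
  ∀ h : Gal F → ZMod 3, IsLocallyConstant h →
    (∀ σ τ, σ I = I → h (σ * τ) = h σ + h τ) → (∀ σ τ, σ I = -I → h (σ * τ) = h σ - h τ) →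
    (∀ ι : AlgebraicClosure F →+* PadicAlgCl 3, ∀ σ ∈ Dec ι, σ I = I → h σ = 0) →
    (∀ (p : ℕ) [Fact p.Prime], p ≠ 2 → p ≠ 3 → p % 12 ≠ 7 →
      ∀ ι : AlgebraicClosure F →+* PadicAlgCl p, ∀ σ ∈ Inr ι, h σ = 0) →
    ∀ σ, σ I = I → h σ = 0

end Pool.Agent.W2helper2.RG
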