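import Mathlib
import Pool.Agent.W2helper2.RG.Stm
import Pool.Agent.W2helper55.TQ.Ds
import Pool.Agent.W2helper16.RG.X
import Pool.Agent.W2helper71.RG.AV

/-!
# Project RG: the theorem for one representation of the Galois group of `k`
-/

set_option autoImplicit false
set_option linter.unusedSectionVars false

namespace Pool.Agent.W2helper2.RG

open NumberField IsDedekindDomain
open Pool.Agent.W2helper24.TQ (Ram)
open Pool.Agent.W2helper55.TQ (cj cj_apply cj_mul cj_cont)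
open Pool.Agent.TH841.SH.D (Gal)
open scoped Classical

section cjh
variable {k k' : Type} [Field k] [Field k'] [Algebra k k']
  (φ : AlgebraicClosure k ≃ₐ[k] AlgebraicClosure k')

/-- restriction of the automorphisms, as a homomorphism -/
noncomputable def cjh : Gal k' →* Gal k where
  toFun := cj φ
  map_one' := by
    apply AlgEquiv.ext
    intro x
    show φ.symm (φ x) = x
    rw [φ.symm_apply_apply]
  map_mul' := cj_mul φ

lemma cjh_apply (σ : Gal k') (x : AlgebraicClosure k) : cjh φ σ x = φ.symm (σ (φ x)) := rfl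

lemma cjh_symm (σ : Gal k') (x : AlgebraicClosure k) : φ (cjh φ σ x) = σ (φ x) := by
  rw [cjh_apply, φ.apply_symm_apply]

lemma cjh_cont [CharZero k] : Continuous (cjh φ) := cj_cont φ

variable {p : ℕ} [Fact p.Prime]

lemma cjh_dec {ι : AlgebraicClosure k' →+* PadicAlgCl p} {σ : Gal k'} (hσ : σ ∈ Dec ι) :
    cjh φ σ ∈ Dec (ι.comp (φ : AlgebraicClosure k →+* AlgebraicClosure k')) := by
  obtain ⟨τ, hτ⟩ := hσ
  refine ⟨τ, fun x => ?_⟩
  show τ (ι (φ x)) = ι (φ (cjh φ σ x))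
  rw [cjh_symm, hτ]

lemma cjh_inr {ι : AlgebraicClosure k' →+* PadicAlgCl p} {σ : Gal k'} (hσ : σ ∈ Inr ι) :
    cjh φ σ ∈ Inr (ι.comp (φ : AlgebraicClosure k →+* AlgebraicClosure k')) := by
  obtain ⟨τ, hτ, h1⟩ := hσ
  refine ⟨τ, fun x => ?_, h1⟩
  show τ (ι (φ x)) = ι (φ (cjh φ σ x))
  rw [cjh_symm, hτ]

/-- the automorphisms which are trivial on `k'` -/
lemma cjh_surj {σ : Gal k}
    (hσ : ∀ x : k', σ (φ.symm (algebraMap k' _ x)) = φ.symm (algebraMap k' _ x)) :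
    ∃ τ : Gal k', cjh φ τ = σ := by
  let g : AlgebraicClosure k' ≃ₐ[k] AlgebraicClosure k' := (φ.symm.trans σ).trans φ
  have hg : ∀ x : k', g (algebraMap k' _ x) = algebraMap k' _ x := by
    intro x
    show φ (σ (φ.symm (algebraMap k' _ x))) = _
    rw [hσ, φ.apply_symm_apply]
  let τ : Gal k' := { g with commutes' := hg }
  refine ⟨τ, AlgEquiv.ext fun x => ?_⟩
  show φ.symm (φ (σ (φ.symm (φ x)))) = σ x
  rw [φ.symm_apply_apply, φ.symm_apply_apply]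

end cjh

lemma exists_emb (F : Type) [Field F] [NumberField F] (p : ℕ) [Fact p.Prime] :
    Nonempty (AlgebraicClosure F →+* PadicAlgCl p) := by
  have h1 : Algebra.IsAlgebraic ℚ (AlgebraicClosure F) := Algebra.IsAlgebraic.trans ℚ F _
  have h2 : IsAlgClosed (PadicAlgCl p) := inferInstanceAs (IsAlgClosed (AlgebraicClosure ℚ_[p]))
  let f : AlgebraicClosure F →ₐ[ℚ] PadicAlgCl p := IsAlgClosed.lift
  exact ⟨f⟩

variable {K F k : Type} [Field K] [NumberField K] [IsCyclotomicExtension {3} ℚ K]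
  [Field F] [NumberField F] [Algebra K F] [IsGalois K F] [Field k] [NumberField k] [Algebra k F]

/-- **the theorem for a representation** of `Gal k` -/
theorem rep_of (hR : P_R) {N : ℕ} (hn : Module.finrank K F = 3 ^ N) (hram : Ram K F)
    (φ : AlgebraicClosure k ≃ₐ[k] AlgebraicClosure F) {I : AlgebraicClosure k} (hI : I ^ 2 = -1)
    {J : Type} [Fintype J] [DecidableEq J] {ρ : Gal k →* Matrix J J ℤ_[3]} {wt : J → ℕ}
    (hcont : ∀ α β, Continuous fun σ => ρ σ α β)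
    (htri : Tri (fun σ : Gal F => cjh φ σ I = I) (ρ.comp (cjh φ)) wt)
    (hunr : ∀ (p : ℕ) [Fact p.Prime], p ≠ 2 → p ≠ 3 → p % 12 ≠ 7 →
      ∀ ι : AlgebraicClosure k →+* PadicAlgCl p, ∀ σ ∈ Inr ι, ρ σ = 1)
    {c : Gal k → J → ℚ_[3]} (hc : Coc ρ c)
    (h3 : ∀ ι : AlgebraicClosure k →+* PadicAlgCl 3, Cob ρ (Dec ι) c)
    (hN : ∀ (p : ℕ) [Fact p.Prime], p ≠ 2 → p ≠ 3 → p % 12 ≠ 7 →
      ∀ ι : AlgebraicClosure k →+* PadicAlgCl p, Cob ρ (Inr ι) c) :
    Cob ρ Set.univ c := by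
  have hI' : (φ I) ^ 2 = -1 := by rw [← map_pow, hI, map_neg, map_one]
  obtain ⟨hd, hres⟩ := hR K F N hn hram (φ I) hI'
  have hiff : ∀ σ : Gal F, cjh φ σ I = I ↔ σ (φ I) = φ I := by
    intro σ
    rw [← cjh_symm, φ.injective.eq_iff]
  have hcas : ∀ σ : Gal F, σ (φ I) = φ I ∨ σ (φ I) = -φ I := by
    intro σ
    apply sq_eq_sq_iff_eq_or_eq_neg.1
    rw [← map_pow, hI', map_neg, map_one]
  have hI0 : φ I ≠ 0 := by
    intro h
    rw [h] at hI'
    norm_num at hI'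
  have hne : φ I ≠ -φ I := by
    intro h
    have h2 : (2 : AlgebraicClosure F) * φ I = 0 := by linear_combination h
    exact (mul_ne_zero two_ne_zero hI0) h2
  have hnot : ∀ σ : Gal F, ¬ cjh φ σ I = I ↔ σ (φ I) = -φ I := by
    intro σ
    rw [hiff]
    constructor
    · intro h
      exact (hcas σ).resolve_left h
    · intro h h'
      rw [h'] at h
      exact hne h
  have hmul : ∀ σ τ : Gal F, cjh φ (σ * τ) I = I ↔ (cjh φ σ I = I ↔ cjh φ τ I = I) := by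
    intro σ τ
    rw [hiff, hiff, hiff, AlgEquiv.mul_apply]
    rcases hcas σ with h1 | h1 <;> rcases hcas τ with h2 | h2
    · simp [h1, h2]
    · rw [h2, map_neg, h1]
      simp
    · rw [h2, h1]
      simp
    · rw [h2, map_neg, h1, neg_neg]
      simp only [true_iff]
  have hex : ∀ ι : AlgebraicClosure F →+* PadicAlgCl 3, ∃ σ ∈ Dec ι, ¬ cjh φ σ I = I := by
    intro ι
    obtain ⟨σ, h1, h2⟩ := hd ι
    exact ⟨σ, h1, (hnot σ).2 h2⟩
  obtain ⟨ι₀⟩ := exists_emb F 3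
  have hG : IsGalois F (AlgebraicClosure F) :=
    haveI : Normal F (AlgebraicClosure F) := IsAlgClosure.normal F _
    IsGalois.mk
  let 𝒟 : Set (Set (Gal F)) := {S | ∃ ι : AlgebraicClosure F →+* PadicAlgCl 3, S = Dec ι}
  let NN : Set (Gal F) := {σ | ∃ (p : ℕ) (_ : Fact p.Prime), (p ≠ 2 ∧ p ≠ 3 ∧ p % 12 ≠ 7) ∧
    ∃ ι : AlgebraicClosure F →+* PadicAlgCl p, σ ∈ Inr ι}
  have hunr' : ∀ σ ∈ NN, (ρ.comp (cjh φ)) σ = 1 := by
    rintro σ ⟨p, hp, ⟨h1, h2, h4⟩, ι, hι⟩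
    exact hunr p h1 h2 h4 _ _ (cjh_inr φ hι)
  have hone : ∀ y : J → ℚ_[3], ac (1 : Matrix J J ℤ_[3]) y = y := by
    intro y
    funext α
    unfold ac
    rw [Finset.sum_eq_single α]
    · rw [Matrix.one_apply_eq]
      simp
    · intro β _ hβ
      rw [Matrix.one_apply_ne (Ne.symm hβ)]
      simp
    · intro h
      exact absurd (Finset.mem_univ α) h
  have key : Cob (ρ.comp (cjh φ)) Set.univ (fun σ => c (cjh φ σ)) := by
    refine Pool.Agent.W2helper16.RG.x (Gal F) J (fun σ => cjh φ σ I = I) 𝒟 NN hmul ?_ ?_ ?_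
      (ρ.comp (cjh φ)) wt (fun α β => (hcont α β).comp (cjh_cont φ)) htri hunr'
      (fun σ => c (cjh φ σ)) ⟨hc.cont.comp (cjh_cont φ), fun σ τ => ?_⟩ ?_ ?_
    · obtain ⟨σ, -, h⟩ := hex ι₀
      exact ⟨σ, h⟩
    · rintro S ⟨ι, rfl⟩
      exact hex ι
    · intro h hlc hp hm hD hNN
      intro σ hσ
      refine hres h hlc (fun σ τ h1 => hp σ τ ((hiff σ).2 h1)) (fun σ τ h1 => hm σ τ ((hnot σ).2 h1))
        (fun ι σ h1 h2 => hD _ ⟨ι, rfl⟩ σ h1 ((hiff σ).2 h2)) (fun p _ h1 h2 h4 ι σ h5 => ?_) σ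
        ((hiff σ).1 hσ)
      exact hNN σ ⟨p, inferInstance, ⟨h1, h2, h4⟩, ι, h5⟩
    · show c (cjh φ (σ * τ)) = _
      rw [map_mul, hc.mul]
      rfl
    · rintro S ⟨ι, rfl⟩
      obtain ⟨y, hy⟩ := h3 (ι.comp (φ : AlgebraicClosure k →+* AlgebraicClosure F))
      exact ⟨y, fun σ hσ => hy _ (cjh_dec φ hσ)⟩
    · rintro σ ⟨p, hp, ⟨h1, h2, h4⟩, ι, hι⟩
      obtain ⟨y, hy⟩ := hN p h1 h2 h4 (ι.comp (φ : AlgebraicClosure k →+* AlgebraicClosure F))
      show c (cjh φ σ) = 0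
      rw [hy _ (cjh_inr φ hι), hunr p h1 h2 h4 _ _ (cjh_inr φ hι), hone, sub_self]
  obtain ⟨y, hy⟩ := key
  refine Pool.Agent.W2helper71.RG.av k F J φ ρ c hc ⟨y, fun σ hσ => ?_⟩
  obtain ⟨τ, rfl⟩ := cjh_surj φ hσ
  exact hy τ (Set.mem_univ _)

end Pool.Agent.W2helper2.RG
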