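import Mathlib
import Pool.Agent.W2helper2.RG.Rep
import Pool.Agent.W2helper71.RG.T1
import Pool.Agent.W2helper16.RG.TEN
import Pool.Agent.W2helper89.RG.Cyc
import Pool.Agent.W2helper89.RG.PL
import Pool.Agent.W2helper2.TQ.Gal

/-!
# Project RG: the theorem for the products of curves
-/

set_option autoImplicit false
set_option linter.unusedSectionVars false

namespace Pool.Agent.W2helper2.RG

open NumberField IsDedekindDomain WeierstrassCurve
open Pool.Agent.W2helper24.TQ (Ram)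
open Pool.Agent.TH841.SH.D (Gal Pt act)
open Pool.Agent.W2helper71.RG (bs_pow acts_of acts_unique)
open scoped Classical

/-! ## the places of good reduction -/

section good
variable {k : Type} [Field k] [NumberField k] {p : ℕ} [Fact p.Prime]

lemma int_norm (ι : AlgebraicClosure k →+* PadicAlgCl p) (x : 𝓞 k) :
    ‖ι (algebraMap k _ (x : k))‖ ≤ 1 := by
  apply Pool.Agent.W528.Ord.norm_le_one_of_integral
  have h : IsIntegral ℤ (x : k) := x.isIntegral_coe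
  exact (h.map (algebraMap k (AlgebraicClosure k)).toIntAlgHom).map ι.toIntAlgHom

/-- the conditions on the curve at one prime number -/
lemma good_of (ι : AlgebraicClosure k →+* PadicAlgCl p) (a b : 𝓞 k)
    (h : ∀ v : HeightOneSpectrum (𝓞 k), (p : 𝓞 k) ∈ v.asIdeal →
      b * (4 * a ^ 3 + 27 * b) ∉ v.asIdeal) :
    ‖ι (algebraMap k _ (a : k))‖ ≤ 1 ∧ ‖ι (algebraMap k _ (b : k))‖ = 1 ∧
      ‖ι (algebraMap k _ (4 * (a : k) ^ 3 + 27 * (b : k)))‖ = 1 := by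
  obtain ⟨w, hw, hC⟩ := (Pool.Agent.W2helper89.RG.PL.p_pl k k (Algebra.ofId k _) p).2 ι
  have h1 : w.valuation k ((b * (4 * a ^ 3 + 27 * b) : 𝓞 k) : k) = 1 := by
    refine le_antisymm (w.valuation_le_one _) (not_lt.1 fun h2 => ?_)
    exact h w hw ((w.valuation_lt_one_iff_mem _).1 h2)
  have h2 : ‖ι (algebraMap k _ ((b * (4 * a ^ 3 + 27 * b) : 𝓞 k) : k))‖ = 1 := by
    have h3 := (hC 1 ((b * (4 * a ^ 3 + 27 * b) : 𝓞 k) : k)).2 (by rw [h1, map_one])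
    rw [map_one, map_one, norm_one] at h3
    exact le_antisymm (int_norm ι _) h3
  have e1 : ((b * (4 * a ^ 3 + 27 * b) : 𝓞 k) : k) = (b : k) * (4 * (a : k) ^ 3 + 27 * (b : k)) := by
    push_cast
    rfl
  have e2 : ((4 * a ^ 3 + 27 * b : 𝓞 k) : k) = 4 * (a : k) ^ 3 + 27 * (b : k) := by
    push_cast
    rfl
  rw [e1, map_mul, map_mul, norm_mul] at h2
  have hb := int_norm ι b
  have hc := int_norm ι (4 * a ^ 3 + 27 * b)
  rw [e2] at hc
  have hb0 := norm_nonneg (ι (algebraMap k _ (b : k)))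
  have hc0 := norm_nonneg (ι (algebraMap k _ (4 * (a : k) ^ 3 + 27 * (b : k))))
  refine ⟨int_norm ι a, ?_, ?_⟩
  · refine le_antisymm hb ?_
    calc 1 = _ := h2.symm
      _ ≤ ‖ι (algebraMap k _ (b : k))‖ * 1 := mul_le_mul_of_nonneg_left hc hb0
      _ = _ := mul_one _
  · refine le_antisymm hc ?_
    calc 1 = _ := h2.symm
      _ ≤ 1 * ‖ι (algebraMap k _ (4 * (a : k) ^ 3 + 27 * (b : k)))‖ :=
        mul_le_mul_of_nonneg_right hb hc0
      _ = _ := one_mul _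

end good

/-- the matrix is one if the points of the basis are fixed -/
lemma acts_fix {A : Type} [AddCommGroup A] {e : Fin 2 → ℕ → A} (hb : Bs e) {f : A →+ A}
    {M : Matrix (Fin 2) (Fin 2) ℤ_[3]} (h : Acts e f M) (hf : ∀ j n, f (e j n) = e j n) : M = 1 := by
  refine acts_unique hb h (acts_of hb fun n => ⟨fun i j => if i = j then 1 else 0, fun i j => ?_,
    fun j => ?_⟩)
  · rw [Matrix.one_apply]
    by_cases hij : i = j <;> simp [hij]
  · rw [hf]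
    simp

/-- the conditions on the curve `y² = x³ - (a x + b)²` -/
def Ad {k : Type} [Field k] [NumberField k] (a b : 𝓞 k) : Prop :=
  b * (4 * a ^ 3 + 27 * b) ≠ 0 ∧ ∀ p : ℕ, p.Prime → p ≠ 2 → p ≠ 3 → p % 12 ≠ 7 →
    ∀ v : HeightOneSpectrum (𝓞 k), (p : 𝓞 k) ∈ v.asIdeal → b * (4 * a ^ 3 + 27 * b) ∉ v.asIdeal

/-- the theorem for the products of curves over `k` -/
def Van (k : Type) [Field k] [NumberField k] : Prop :=
  ∀ (n : ℕ) (a b : Fin n → 𝓞 k), Odd n → (∀ m, Ad (a m) (b m)) →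
    ∃ (e : ∀ m : Fin n, Fin 2 → ℕ → Pt (Eab (a m : k) (b m : k)) (AlgebraicClosure k))
      (ρ : Fin n → Gal k →* Matrix (Fin 2) (Fin 2) ℤ_[3]),
      (∀ m, Bs (e m) ∧ ∀ σ : Gal k, Acts (e m) (act (Eab (a m : k) (b m : k)) σ.toAlgHom) (ρ m σ)) ∧
      ∀ (i : ℕ) (c : Gal k → (Fin n → Fin 2) → ℚ_[3]), Continuous c →
        (∀ σ τ, c (σ * τ) = c σ + ac (tens ρ (cyc k) i σ) (c τ)) →
        (∀ ι : AlgebraicClosure k →+* PadicAlgCl 3, ∃ y : (Fin n → Fin 2) → ℚ_[3],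
          ∀ σ ∈ Dec ι, c σ = ac (tens ρ (cyc k) i σ) y - y) →
        (∀ (p : ℕ) [Fact p.Prime], p ≠ 2 → p ≠ 3 → p % 12 ≠ 7 →
          ∀ ι : AlgebraicClosure k →+* PadicAlgCl p, ∃ y : (Fin n → Fin 2) → ℚ_[3],
            ∀ σ ∈ Inr ι, c σ = ac (tens ρ (cyc k) i σ) y - y) →
        ∃ y : (Fin n → Fin 2) → ℚ_[3], ∀ σ, c σ = ac (tens ρ (cyc k) i σ) y - y

section main
variable {K F k : Type} [Field K] [NumberField K] [IsCyclotomicExtension {3} ℚ K]
  [Field F] [NumberField F] [Algebra K F] [IsGalois K F] [Field k] [NumberField k] [Algebra k F]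

theorem van_of (hR : P_R) (hT2 : P_T2) (hNOS : P_NOS) {N : ℕ}
    (hn : Module.finrank K F = 3 ^ N) (hram : Ram K F) : Van k := by
  intro n a b hodd had
  obtain ⟨I, hI⟩ : ∃ I : AlgebraicClosure k, I ^ 2 = -1 :=
    IsAlgClosed.exists_pow_nat_eq _ (by norm_num)
  obtain ⟨θ, hθ⟩ : ∃ θ : AlgebraicClosure k, θ ^ 2 = -3 :=
    IsAlgClosed.exists_pow_nat_eq _ (by norm_num)
  have hne : ∀ m, (b m : k) ≠ 0 ∧ 4 * (a m : k) ^ 3 + 27 * (b m : k) ≠ 0 := by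
    intro m
    have h1 : ((b m * (4 * a m ^ 3 + 27 * b m) : 𝓞 k) : k) ≠ 0 := by
      rw [Ne, RingOfIntegers.coe_eq_zero_iff]
      exact (had m).1
    push_cast at h1
    exact ⟨left_ne_zero_of_mul h1, right_ne_zero_of_mul h1⟩
  have hT := fun m => hT2 k (a m : k) (b m : k) (hne m).1 (hne m).2 I θ hI hθ
  have hrep : ∀ m : Fin n, ∃ (e : Fin 2 → ℕ → Pt (Eab (a m : k) (b m : k)) (AlgebraicClosure k))
      (ρ : Gal k →* Matrix (Fin 2) (Fin 2) ℤ_[3]), Bs e ∧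
      (∀ σ : Gal k, Acts e (act (Eab (a m : k) (b m : k)) σ.toAlgHom) (ρ σ)) ∧
      (∀ i j, Continuous fun σ => ρ σ i j) ∧
      ∀ σ : Gal k, σ θ = θ →
        (σ I = I → (3 : ℤ_[3]) ∣ ρ σ 0 0 - 1 ∧ (3 : ℤ_[3]) ∣ ρ σ 1 0 ∧ (3 : ℤ_[3]) ∣ ρ σ 1 1 - 1) ∧
        (σ I = -I → (3 : ℤ_[3]) ∣ ρ σ 0 0 + 1 ∧ (3 : ℤ_[3]) ∣ ρ σ 1 0 ∧
          (3 : ℤ_[3]) ∣ ρ σ 1 1 + 1) := by
    intro m
    obtain ⟨hdiv, P, Q, hP, hQ, hs, hi, hg⟩ := hT m
    obtain ⟨e, ρ, h1, h2, -, -, h3, h4⟩ := Pool.Agent.W2helper71.RG.t1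
      (Pt (Eab (a m : k) (b m : k)) (AlgebraicClosure k)) (Gal k)
      (fun σ => act (Eab (a m : k) (b m : k)) σ.toAlgHom) P Q
      (fun T => Pool.Agent.W2helper2.TQ.act_one' _ T)
      (fun σ τ T => Pool.Agent.W2helper2.TQ.act_mul' _ σ τ T)
      (fun T => Pool.Agent.W2helper2.TQ.act_locConst _ T) hdiv hP hQ hs hi
    refine ⟨e, ρ, h1, h2, h3, fun σ hσ => ⟨fun hσI => ?_, fun hσI => ?_⟩⟩
    · obtain ⟨g1, -, g3, -⟩ := hg σ
      obtain ⟨u, hu⟩ := g3 hσ hσI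
      have := h4 σ 1 1 u (by rw [g1 hσI, one_smul]) (by rw [hu, one_smul])
      simpa using this
    · obtain ⟨-, g2, -, g4⟩ := hg σ
      obtain ⟨u, hu⟩ := g4 hσ hσI
      have := h4 σ (-1) (-1) u (by rw [g2 hσI, neg_smul, one_smul]) (by rw [hu, neg_smul, one_smul])
      simpa using this
  choose e ρ hb ha hcont hmod using hrep
  refine ⟨e, ρ, fun m => ⟨hb m, ha m⟩, ?_⟩
  intro i c hc1 hc2 h3 hN
  obtain ⟨ht1, htm, htu, htt⟩ := Pool.Agent.W2helper16.RG.ten (Gal k) n ρ (cyc k) i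
  let R : Gal k →* Matrix (Fin n → Fin 2) (Fin n → Fin 2) ℤ_[3] :=
    { toFun := tens ρ (cyc k) i
      map_one' := ht1
      map_mul' := htm }
  obtain ⟨hy1, hy2, hy3⟩ := Pool.Agent.W2helper89.RG.p_cyc k
  -- the algebraic closures
  have hsc : IsScalarTower ℚ k F := IsScalarTower.of_algebraMap_eq fun x => by
    rw [eq_ratCast, eq_ratCast, map_ratCast]
  have halg : Algebra.IsAlgebraic k F := Algebra.IsAlgebraic.tower_top (K := ℚ) k
  have halg2 : Algebra.IsAlgebraic k (AlgebraicClosure F) := Algebra.IsAlgebraic.trans k F _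
  have hcl : IsAlgClosure k (AlgebraicClosure F) := ⟨inferInstance, halg2⟩
  let φ : AlgebraicClosure k ≃ₐ[k] AlgebraicClosure F := IsAlgClosure.equiv k _ _
  -- `θ` is in `F`
  obtain ⟨ζ, hζ⟩ := IsCyclotomicExtension.exists_isPrimitiveRoot ℚ K
    (Set.mem_singleton 3) (by norm_num)
  have hζ2 : ζ ^ 2 + ζ + 1 = 0 := by
    have h3 : ζ ^ 3 = 1 := hζ.pow_eq_one
    have h4 : ζ ≠ 1 := hζ.ne_one (by norm_num)
    have h5 : (ζ - 1) * (ζ ^ 2 + ζ + 1) = 0 := by linear_combination h3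
    exact (mul_eq_zero.1 h5).resolve_left (sub_ne_zero.2 h4)
  have hfix : ∀ σ : Gal F, cjh φ σ θ = θ := by
    intro σ
    apply φ.injective
    rw [cjh_symm]
    set θ' : F := algebraMap K F (2 * ζ + 1) with hθ'
    have h1 : θ' ^ 2 = -3 := by
      rw [hθ', ← map_pow, show (2 * ζ + 1) ^ 2 = -3 by linear_combination 4 * hζ2, map_neg,
        map_ofNat]
    have h2 : (algebraMap F (AlgebraicClosure F) θ') ^ 2 = -3 := by
      rw [← map_pow, h1, map_neg, map_ofNat]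
    have h3 : (φ θ) ^ 2 = -3 := by rw [← map_pow, hθ, map_neg, map_ofNat]
    rcases sq_eq_sq_iff_eq_or_eq_neg.1 (h3.trans h2.symm) with h4 | h4
    · rw [h4, σ.commutes]
    · rw [h4, map_neg, σ.commutes]
  have hcasI : ∀ g : Gal k, g I = I ∨ g I = -I := by
    intro g
    apply sq_eq_sq_iff_eq_or_eq_neg.1
    rw [← map_pow, hI, map_neg, map_one]
  refine Exists.imp (fun y hy σ => hy σ (Set.mem_univ _)) (rep_of (k := k) hR hn hram φ hI (ρ := R)
    (wt := fun α => (Finset.univ.filter fun k => α k = 1).card) ?_ ?_ ?_ (c := c) ⟨hc1, hc2⟩ h3 hN)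
  · intro α β
    show Continuous fun σ => tens ρ (cyc k) i σ α β
    unfold tens
    simp only [Matrix.of_apply]
    refine Continuous.mul ?_ (continuous_finsetProd _ fun m _ => hcont m _ _)
    have h1 : Continuous fun σ => ((cyc k σ)⁻¹ ^ i : ℤ_[3]ˣ) := (hy1.inv).pow i
    exact Units.continuous_val.comp h1
  · have hcy : ∀ σ : Gal F, (3 : ℤ_[3]) ∣ ((cyc k (cjh φ σ) : ℤ_[3]ˣ) : ℤ_[3]) - 1 := fun σ =>
      hy2 θ hθ _ (hfix σ)
    have h10 : ∀ (σ : Gal F) m, (3 : ℤ_[3]) ∣ ρ m (cjh φ σ) 1 0 := by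
      intro σ m
      rcases hcasI (cjh φ σ) with h | h
      · exact ((hmod m _ (hfix σ)).1 h).2.1
      · exact ((hmod m _ (hfix σ)).2 h).2.1
    refine ⟨fun σ α β hαβ hwt => ?_, fun σ hσ α => ?_, fun σ hσ α => ?_⟩
    · exact (htt (cjh φ σ) (hcy σ) (h10 σ)).1 α β hαβ hwt
    · refine (htt (cjh φ σ) (hcy σ) (h10 σ)).2.1 (fun m s => ?_) α
      fin_cases s
      · exact ((hmod m _ (hfix σ)).1 hσ).1
      · exact ((hmod m _ (hfix σ)).1 hσ).2.2
    · have hσ' := (hcasI (cjh φ σ)).resolve_left hσ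
      refine (htt (cjh φ σ) (hcy σ) (h10 σ)).2.2 hodd (fun m s => ?_) α
      fin_cases s
      · exact ((hmod m _ (hfix σ)).2 hσ').1
      · exact ((hmod m _ (hfix σ)).2 hσ').2.2
  · intro p hp h1 h2 h4 ι σ hσ
    refine htu σ (fun m => ?_) (hy3 p h2 ι σ hσ)
    obtain ⟨g1, g2, g3⟩ := good_of ι (a m) (b m) fun v hv => (had m).2 p hp.out h1 h2 h4 v hv
    exact acts_fix (hb m) (ha m σ) fun j r => hNOS k _ _ p h1 h2 ι g1 g2 g3 σ hσ r _
      (bs_pow (hb m) j r)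

end main

end Pool.Agent.W2helper2.RG
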