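import Mathlib
import Pool.Agent.W2helper2.TQ.A8
import Pool.Agent.W2helper2.RG.Stm
import Pool.Agent.Y715.Nr

/-!
# Project RG: the residual classes vanish (piece R, from PL, DEN, S1, KUR)
-/

set_option autoImplicit false
set_option linter.unusedSectionVars false

namespace Pool.Agent.W2helper2.RG

open NumberField IsDedekindDomain WithZero
open Pool.Agent.W2helper24.TQ Pool.Agent.W2helper2.TQ
open Pool.Agent.TH841.SH.D (Gal)
open Pool.Agent.Y715.Nr (Inert inert_of_kur mem_kur norm_ne Au nrm)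
open Pool.Agent.Y715.T.Kum (val_mul_pow)
open Pool.Agent.W237.RK (kur)
open scoped Classical

section kumm
variable {F L : Type} [Field F] [CharZero F] [Field L] [Algebra F L] {i : L} {σL : L ≃ₐ[F] L}
  (D : Qd i σL) (e : L →ₐ[F] AlgebraicClosure F)

include D

/-- **the Kummer element of a residual class** -/
theorem kumm {ω : F} (hω : ω ^ 2 + ω + 1 = 0) {h : Gal F → ZMod 3} (hlc : IsLocallyConstant h)
    (hpl : ∀ σ τ : Gal F, σ (e i) = e i → h (σ * τ) = h σ + h τ)
    (hmi : ∀ σ τ : Gal F, σ (e i) = -(e i) → h (σ * τ) = h σ - h τ) :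
    ∃ (s : AlgebraicClosure F) (z : L), s ≠ 0 ∧ s ^ 3 = e z ∧
      (∀ σ : Gal F, σ (e i) = e i →
        σ s = (algebraMap F (AlgebraicClosure F) ω) ^ (h σ).val * s) ∧
      (∃ a : L, z * σL z = a ^ 3) ∧
      ((∃ a : L, z = a ^ 3) → ∀ σ : Gal F, σ (e i) = e i → h σ = 0) := by
  obtain ⟨s, z, hs, hz, hσ⟩ := kum e hω h hlc (fun σ τ h1 _ => hpl σ τ (h1 i))
  have hσs : ∀ σ : Gal F, σ (e i) = e i →
      σ s = (algebraMap F (AlgebraicClosure F) ω) ^ (h σ).val * s := fun σ h1 =>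
    hσ σ (D.fix e h1)
  set w := algebraMap F (AlgebraicClosure F) ω with hw
  have hww : w ^ 2 + w + 1 = 0 := map_om hω _
  have hw3 : w ^ 3 = 1 := by linear_combination (w - 1) * hww
  have hgw : ∀ g : Gal F, g w = w := fun g => g.commutes ω
  obtain ⟨c, hc⟩ := D.exc e
  have hci := D.inv e hc
  have hct : ∀ σ : Gal F, σ (e i) = e i → (c⁻¹ * (σ * c)) (e i) = e i := by
    intro σ h1
    rw [AlgEquiv.mul_apply, AlgEquiv.mul_apply, hc, map_neg, h1, map_neg, hci, neg_neg]
  have hcv : ∀ σ : Gal F, σ (e i) = e i → h (c⁻¹ * (σ * c)) = -h σ := by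
    intro σ h1
    have e1 := hmi c (c⁻¹ * (σ * c)) hc
    rw [mul_inv_cancel_left, hpl σ c h1] at e1
    linear_combination e1
  refine ⟨s, z, hs, hz, hσs, ?_, ?_⟩
  · obtain ⟨a, ha⟩ := fixL e (s * c s) (by
      intro σ h1
      have h2 := h1 i
      have e1 : σ (c s) = c ((c⁻¹ * (σ * c)) s) := by
        rw [← AlgEquiv.mul_apply, ← AlgEquiv.mul_apply, mul_inv_cancel_left]
      rw [map_mul, e1, hσs _ (hct σ h2), map_mul, map_pow, hgw, hcv σ h2, hσs σ h2]
      have e2 : w ^ (h σ).val * w ^ (-h σ).val = 1 := by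
        rw [← val_mul_pow hw3, add_neg_cancel, ZMod.val_zero, pow_zero]
      linear_combination (s * c s) * e2)
    refine ⟨a, e.injective ?_⟩
    show e (z * σL z) = e (a ^ 3)
    rw [map_mul, map_pow, ha, mul_pow, hz, ← map_pow, hz, D.conj e hc]
  · rintro ⟨a, rfl⟩
    have hfs : ∀ σ : Gal F, σ (e i) = e i → σ s = s := by
      intro σ h1
      have e1 : s ^ 3 = (e a) ^ 3 := by rw [hz, map_pow]
      have e2 : (s - e a) * ((s - w * e a) * (s - w ^ 2 * e a)) = 0 := by
        linear_combination e1 - (e a) ^ 3 * hw3 + (s * (e a) ^ 2 * w - s ^ 2 * e a) * hww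
      have e3 := D.fix e h1 a
      rcases mul_eq_zero.1 e2 with e4 | e4
      · rw [sub_eq_zero.1 e4, e3]
      rcases mul_eq_zero.1 e4 with e5 | e5
      · rw [sub_eq_zero.1 e5, map_mul, hgw, e3]
      · rw [sub_eq_zero.1 e5, map_mul, map_pow, hgw, e3]
    intro σ h1
    have e1 := hσs σ h1
    rw [hfs σ h1] at e1
    have e2 : w ^ (h σ).val = 1 := by
      have e3 : (w ^ (h σ).val - 1) * s = 0 := by linear_combination -e1
      exact sub_eq_zero.1 ((mul_eq_zero.1 e3).resolve_right hs)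
    have hw1 : w ≠ 1 := by
      intro e4
      rw [e4] at hww
      norm_num at hww
    have h3 : ∀ x : ZMod 3, x = 0 ∨ x.val = 1 ∨ x.val = 2 := by decide
    rcases h3 (h σ) with h4 | h4 | h4
    · exact h4
    · rw [h4, pow_one] at e2
      exact absurd e2 hw1
    · rw [h4] at e2
      exfalso
      apply hw1
      linear_combination hw3 - w * e2

end kumm

/-- restriction of automorphisms -/
lemma restr {F : Type} [Field F] [CharZero F] {p : ℕ} [Fact p.Prime]
    (ι : AlgebraicClosure F →+* PadicAlgCl p) (τ : Au p)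
    (hτ : ∀ x : F, τ (ι (algebraMap F _ x)) = ι (algebraMap F _ x)) :
    ∃ σ : Gal F, ∀ x, τ (ι x) = ι (σ x) := by
  let _ : Algebra F (PadicAlgCl p) := (ι.comp (algebraMap F (AlgebraicClosure F))).toAlgebra
  let _ : Algebra (AlgebraicClosure F) (PadicAlgCl p) := ι.toAlgebra
  have : IsScalarTower F (AlgebraicClosure F) (PadicAlgCl p) :=
    IsScalarTower.of_algebraMap_eq (fun x => rfl)
  have : Normal F (AlgebraicClosure F) := IsAlgClosure.normal F _
  let τ' : PadicAlgCl p ≃ₐ[F] PadicAlgCl p := { τ with commutes' := hτ }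
  exact ⟨τ'.restrictNormal (AlgebraicClosure F), fun x =>
    (AlgEquiv.restrictNormal_commutes τ' (AlgebraicClosure F) x).symm⟩

section loc
variable {F L : Type} [Field F] [NumberField F] [Field L] [NumberField L] [Algebra F L] {p : ℕ}
  [Fact p.Prime] {e : L →ₐ[F] AlgebraicClosure F} {ι : AlgebraicClosure F →+* PadicAlgCl p}
  {w : HeightOneSpectrum (𝓞 L)}

lemma Cmp.eq_iff (h : Cmp e ι w) (x y : L) :
    ‖ι (e x)‖ = ‖ι (e y)‖ ↔ w.valuation L x = w.valuation L y := by
  rw [le_antisymm_iff, le_antisymm_iff, h x y, h y x]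

lemma cube_rep {x y : ℤᵐ⁰} (hx : x ≠ 0) (hy : y ≠ 0) (h : x ^ 2 = y ^ 3) :
    ∃ m : ℤ, x = exp (3 * m) := by
  obtain ⟨a, rfl⟩ := exp_rep' hx
  obtain ⟨b, rfl⟩ := exp_rep' hy
  rw [← exp_nsmul, ← exp_nsmul, exp_inj] at h
  simp only [nsmul_eq_mul] at h
  push_cast at h
  refine ⟨a - b, ?_⟩
  congr 1
  omega

/-- stable primes -/
lemma div_stable {σL : L ≃ₐ[F] L} (hst : ∀ x : L, w.valuation L (σL x) = w.valuation L x) {z a : L}
    (hz : z ≠ 0) (ha : z * σL z = a ^ 3) : ∃ a : L, w.valuation L (z * a ^ 3) = 1 := by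
  have hv0 : w.valuation L z ≠ 0 := (w.valuation L).ne_zero_iff.2 hz
  have ha0 : a ≠ 0 := by
    rintro rfl
    rw [zero_pow (by norm_num)] at ha
    exact mul_ne_zero hz ((map_ne_zero σL).2 hz) ha
  have h1 := congrArg (w.valuation L) ha
  rw [map_mul, hst, map_pow, ← pow_two] at h1
  obtain ⟨m, hm⟩ := cube_rep hv0 ((w.valuation L).ne_zero_iff.2 ha0) h1
  exact div_of_val hm

lemma norm_p : ‖(p : PadicAlgCl p)‖ = (p : ℝ)⁻¹ := by
  have h1 : (p : PadicAlgCl p) = ((p : ℚ_[p]) : PadicAlgCl p) := by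
    show _ = algebraMap ℚ_[p] (PadicAlgCl p) _
    rw [map_natCast]
  rw [h1, PadicAlgCl.norm_extends, Padic.norm_p]

/-- the primes where `F` is unramified -/
lemma div_unr (hC : Cmp e ι w) (hk : ∀ x : F, ι (algebraMap F _ x) ∈ kur p)
    {s : AlgebraicClosure F} {z : L} (hs0 : s ≠ 0) (hs : s ^ 3 = e z)
    (hfix : ∀ σ ∈ Inr ι, σ s = s) : ∃ a : L, w.valuation L (z * a ^ 3) = 1 := by
  have hmem : ι s ∈ kur p := by
    apply mem_kur
    intro τ hτ
    obtain ⟨σ, hσ⟩ := restr ι τ fun x => hτ _ (hk x)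
    rw [hσ, hfix σ ⟨τ, hσ, inert_of_kur hτ⟩]
  obtain ⟨m, hm⟩ := norm_ne ((map_ne_zero ι).2 hs0) hmem
  have hp0 : (p : ℝ) ≠ 0 := Nat.cast_ne_zero.2 (Fact.out : p.Prime).ne_zero
  refine ⟨(p : L) ^ m, ?_⟩
  rw [← map_one (w.valuation L), ← hC.eq_iff, map_mul, map_mul, ← hs, map_pow, norm_mul, norm_pow,
    hm, map_pow e, map_pow ι, map_zpow₀, map_zpow₀, map_natCast, map_natCast, norm_pow, norm_zpow,
    norm_p, map_one, map_one, norm_one, ← mul_pow, ← mul_zpow, mul_inv_cancel₀ hp0, one_zpow,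
    one_pow]

/-- the primes above three -/
lemma pp_of_near {ι : AlgebraicClosure F →+* PadicAlgCl 3} (hC : Cmp e ι w)
    (hw : (3 : 𝓞 L) ∈ w.asIdeal) (h3 : exp (-3 : ℤ) ≤ w.valuation L 3)
    {s : AlgebraicClosure F} {z : L} (hs0 : s ≠ 0) (hs : s ^ 3 = e z)
    (hnear : ∀ ε : ℝ, 0 < ε → ∃ t : L, ‖ι s - ι (e t)‖ < ε) :
    PP (w.valuation L) (Nat.card (𝓞 L ⧸ w.asIdeal) - 1) z := by
  have hn3 : ‖(3 : PadicAlgCl 3)‖ = (3 : ℝ)⁻¹ := by
    have := norm_p (p := 3)
    push_cast at this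
    exact this
  have his : 0 < ‖ι s‖ := norm_pos_iff.2 ((map_ne_zero ι).2 hs0)
  obtain ⟨t, ht⟩ := hnear (‖(3 : PadicAlgCl 3)‖ * ‖ι s‖) (by rw [hn3]; positivity)
  have hlt : ‖ι s - ι (e t)‖ < ‖ι s‖ := by
    refine ht.trans ?_
    rw [hn3]
    linarith
  have htn : ‖ι (e t)‖ = ‖ι s‖ := by
    have e1 : ι (e t) = ι s + -(ι s - ι (e t)) := by ring
    rw [e1]
    exact Pool.Agent.Y715.Red.eq_of_lt (by rwa [norm_neg])
  have ht0 : t ≠ 0 := by
    rintro rfl
    rw [map_zero, map_zero, norm_zero] at htn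
    exact his.ne htn
  have h1 : ‖ι (e (z - t ^ 3))‖ ≤ ‖ι (e (3 * t ^ 3))‖ := by
    have e1 : ι (e (z - t ^ 3)) =
        (ι s - ι (e t)) * (ι s ^ 2 + ι s * ι (e t) + ι (e t) ^ 2) := by
      rw [map_sub, ← hs, map_sub, map_pow, map_pow, map_pow]
      ring
    have e2 : ‖ι (e (3 * t ^ 3))‖ = ‖(3 : PadicAlgCl 3)‖ * ‖ι s‖ * ‖ι s‖ ^ 2 := by
      rw [map_mul, map_mul, map_ofNat, map_ofNat, map_pow, map_pow, norm_mul, norm_pow, htn]
      ring
    rw [e1, e2, norm_mul]
    refine mul_le_mul ht.le ?_ (norm_nonneg _) (by positivity)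
    refine (IsUltrametricDist.norm_add_le_max _ _).trans (max_le
      ((IsUltrametricDist.norm_add_le_max _ _).trans (max_le ?_ ?_)) ?_)
    · rw [norm_pow]
    · rw [norm_mul, htn, pow_two]
    · rw [norm_pow, htn]
  have h2 := (hC _ _).1 h1
  have hvt : w.valuation L t ≠ 0 := (w.valuation L).ne_zero_iff.2 ht0
  have h3lt : w.valuation L 3 < 1 := by
    have h6 := (HeightOneSpectrum.valuation_lt_one_iff_mem (K := L) w (3 : 𝓞 L)).2 hw
    exact h6
  set u := z / t ^ 3 with hu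
  have hu1 : w.valuation L (u - 1) ≤ w.valuation L 3 := by
    have e1 : u - 1 = (z - t ^ 3) / t ^ 3 := by
      rw [hu]
      field_simp
    rw [e1, map_div₀, map_pow]
    rw [map_mul, map_pow] at h2
    rw [div_le_iff₀ (pow_pos (zero_lt_iff.2 hvt) 3)]
    exact h2
  have hvu : w.valuation L u = 1 := by
    have e1 : u = 1 + (u - 1) := by ring
    rw [e1, Valuation.map_add_eq_of_lt_left, map_one]
    rw [map_one]
    exact lt_of_le_of_lt hu1 h3lt
  have hF : ∀ t : L, w.valuation L t = 1 →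
      w.valuation L (t ^ (Nat.card (𝓞 L ⧸ w.asIdeal) - 1) - 1) < 1 := fun t ht => fermat w ht
  have h4 : PP (w.valuation L) (Nat.card (𝓞 L ⧸ w.asIdeal) - 1) u :=
    PP.unit hF h3 hvu (pow_sub_one hvu hu1 _)
  have e1 : z = t ^ 3 * u := by
    rw [hu]
    field_simp
  rw [e1]
  exact (PP.cube hF h3 ht0).mul h4

lemma norm_two_odd (hp : p ≠ 2) : ‖(2 : PadicAlgCl p)‖ = 1 := by
  have hpp : p.Prime := Fact.out
  have h : ¬ p ∣ 2 := fun h => hp ((Nat.prime_dvd_prime_iff_eq hpp Nat.prime_two).1 h)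
  have := Pool.Agent.W327.RK.norm_nat h
  exact_mod_cast this

lemma inr_fix {I : AlgebraicClosure F} (hI : I ^ 2 = -1) (hp : p ≠ 2) {σ : Gal F}
    (hσ : σ ∈ Inr ι) : σ I = I := by
  have h1 : (σ I) ^ 2 = I ^ 2 := by rw [← map_pow, hI, map_neg, map_one]
  rcases sq_eq_sq_iff_eq_or_eq_neg.1 h1 with h2 | h2
  · exact h2
  · exfalso
    obtain ⟨τ, h3, h4⟩ := hσ
    have hn : ‖ι I‖ = 1 := by
      have h5 := congrArg (fun x => ‖ι x‖) hI
      simp only [map_pow, norm_pow, map_neg, map_one, norm_neg, norm_one] at h5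
      exact (pow_eq_one_iff_of_nonneg (norm_nonneg _) (by norm_num)).1 h5
    have h6 := h4 (ι I) hn.le
    rw [h3, h2, map_neg] at h6
    have e1 : -ι I - ι I = -(2 * ι I) := by ring
    rw [e1, norm_neg, norm_mul, hn, mul_one, norm_two_odd hp] at h6
    exact lt_irrefl _ h6

end loc

/-- the residue characteristic -/
lemma exists_char {L : Type} [Field L] [NumberField L] (w : HeightOneSpectrum (𝓞 L)) :
    ∃ p : ℕ, p.Prime ∧ (p : 𝓞 L) ∈ w.asIdeal := by
  have h1 : ((Ideal.absNorm w.asIdeal : ℕ) : 𝓞 L) ∈ w.asIdeal := Ideal.absNorm_mem _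
  have h2 : Ideal.absNorm w.asIdeal ≠ 0 := by
    rw [Ne, Ideal.absNorm_eq_zero_iff]
    exact w.ne_bot
  have h3 : ∀ m : ℕ, m ≠ 0 → (m : 𝓞 L) ∈ w.asIdeal →
      ∃ p : ℕ, p.Prime ∧ (p : 𝓞 L) ∈ w.asIdeal := by
    intro m
    induction m using Nat.recOnMul with
    | zero => intro h; exact absurd rfl h
    | one =>
      intro _ h
      exfalso
      rw [Nat.cast_one] at h
      exact w.isPrime.ne_top ((Ideal.eq_top_iff_one _).2 h)
    | prime p hp => exact fun _ h => ⟨p, hp, h⟩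
    | mul a b iha ihb =>
      intro h0 h
      rw [Nat.cast_mul] at h
      rcases w.isPrime.mem_or_mem h with h | h
      · exact iha (left_ne_zero_of_mul h0) h
      · exact ihb (right_ne_zero_of_mul h0) h
  exact h3 _ h2 h1

/-- PIECE R from the pieces PL, DEN, S1, KUR -/
theorem res_of (hPL : P_PL) (hDEN : P_DEN) (hS1 : P_S1) (hKUR : P_KUR) : P_R := by
  intro K F _ _ _ _ _ _ _ n hn hR I hI
  obtain ⟨M, _, _, _, L, _, _, _, _, _, _, _, i, σM, σ, hcyc, hgal, T⟩ :=
    Pool.Agent.W2helper15.TQ.piece K F n hn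
  obtain ⟨ζ, hζ⟩ := IsCyclotomicExtension.exists_isPrimitiveRoot ℚ K
    (Set.mem_singleton 3) (by norm_num)
  have hζ2 : ζ ^ 2 + ζ + 1 = 0 := by
    have h3 : ζ ^ 3 = 1 := hζ.pow_eq_one
    have h4 : ζ ≠ 1 := hζ.ne_one (by norm_num)
    have h5 : (ζ - 1) * (ζ ^ 2 + ζ + 1) = 0 := by linear_combination h3
    exact (mul_eq_zero.1 h5).resolve_left (sub_ne_zero.2 h4)
  have hω : (algebraMap K F ζ) ^ 2 + algebraMap K F ζ + 1 = 0 := by
    rw [← map_pow, ← map_add, ← map_one (algebraMap K F), ← map_add, hζ2, map_zero]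
  have hθ : (2 * ζ + 1) ^ 2 = -3 := by linear_combination 4 * hζ2
  obtain ⟨r1, r2, r3⟩ := a7 K F n hn hR M L i σM σ T
  have hi : (algebraMap M L i) ^ 2 = -1 := by rw [← map_pow, T.hi, map_neg, map_one]
  have D : Qd (algebraMap M L i) σ := ⟨hi, T.sL, T.gen, T.not⟩
  have hfinL : FiniteDimensional F L := Module.Finite.of_restrictScalars_finite ℚ F L
  let e : L →ₐ[F] AlgebraicClosure F := IsAlgClosed.lift
  set j := algebraMap M L i with hj
  have hej := D.eI e
  have hee : I = e j ∨ I = -e j := sq_eq_sq_iff_eq_or_eq_neg.1 (by rw [hI, hej])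
  have hfixI : ∀ g : Gal F, g I = I ↔ g (e j) = e j := by
    intro g
    rcases hee with h | h
    · rw [h]
    · rw [h, map_neg, neg_inj]
  have hnegI : ∀ g : Gal F, g I = -I ↔ g (e j) = -(e j) := by
    intro g
    rcases hee with h | h
    · rw [h]
    · rw [h, map_neg, neg_inj]
  have hv3 : ∀ w : HeightOneSpectrum (𝓞 L), (3 : 𝓞 L) ∈ w.asIdeal →
      w.valuation L 3 = exp (-2 : ℤ) := fun w hw => val_three_L hR T hw
  constructor
  · intro ι
    by_contra hcon
    push Not at hcon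
    have h1 : ∀ g ∈ Dec ι, g (e j) = e j := fun g hg =>
      (D.cas e g).resolve_right (fun h => hcon g hg ((hnegI g).2 h))
    obtain ⟨t, ht⟩ := hDEN F F (Algebra.ofId F _) 3 ι (e j) (fun g hg _ => h1 g hg) 1 one_pos
    obtain ⟨w, hw, hC⟩ := (hPL F L e 3).2 ι
    have h2 : ∀ y, ‖ι (e (σ y))‖ = ‖ι (e y)‖ := fun y => (hC.eq_iff _ _).2
      (hS1 K F n hn M L i σM σ T 3 Nat.prime_three (Or.inr (Or.inl rfl)) w hw y)
    have h3 := h2 (j - algebraMap F L t)
    rw [map_sub σ, σ.commutes, T.sL, map_sub e, map_sub e, e.commutes, map_neg e, map_sub ι,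
      map_sub ι, map_neg ι] at h3
    have h4 : ‖ι (e j) - ι (algebraMap F (AlgebraicClosure F) t)‖ < 1 := ht
    have hn1 : ‖ι (e j)‖ = 1 := by
      have h5 := congrArg (fun x => ‖ι x‖) hej
      simp only [map_pow, norm_pow, map_neg, map_one, norm_neg, norm_one] at h5
      exact (pow_eq_one_iff_of_nonneg (norm_nonneg _) (by norm_num)).1 h5
    have h5 : ‖(ι (e j) - ι (algebraMap F (AlgebraicClosure F) t)) -
        (-ι (e j) - ι (algebraMap F (AlgebraicClosure F) t))‖ < 1 :=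
      Pool.Agent.Y715.Red.sub_lt h4 (by rw [h3]; exact h4)
    have e1 : (ι (e j) - ι (algebraMap F (AlgebraicClosure F) t)) -
        (-ι (e j) - ι (algebraMap F (AlgebraicClosure F) t)) = 2 * ι (e j) := by ring
    rw [e1, norm_mul, hn1, mul_one, norm_two_odd (p := 3) (by norm_num)] at h5
    exact lt_irrefl _ h5
  · intro h hlc hpl hmi hD hN g hg
    obtain ⟨s, z, hs0, hs, hσs, hcube, hfin⟩ := kumm D e hω hlc
      (fun a b ha => hpl a b ((hfixI a).2 ha)) (fun a b ha => hmi a b ((hnegI a).2 ha))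
    refine hfin ?_ g ((hfixI g).1 hg)
    have hz0 : z ≠ 0 := by
      rintro rfl
      rw [map_zero] at hs
      exact pow_ne_zero 3 hs0 hs
    have hzero : ∀ g : Gal F, g (e j) = e j → h g = 0 → g s = s := by
      intro g h1 h2
      rw [hσs g h1, h2, ZMod.val_zero, pow_zero, one_mul]
    have hsel : Sel z := by
      refine ⟨hz0, fun w => ?_, fun w hw a ha => ?_⟩
      · obtain ⟨p, hp, hpw⟩ := exists_char w
        by_cases hcas : p = 2 ∨ p = 3 ∨ p % 12 = 7
        · obtain ⟨a, ha⟩ := hcube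
          exact div_stable (hS1 K F n hn M L i σM σ T p hp hcas w hpw) hz0 ha
        · push Not at hcas
          have : Fact p.Prime := ⟨hp⟩
          obtain ⟨ι, hC⟩ := (hPL F L e p).1 w hpw
          exact div_unr hC (hKUR K F hR p hcas.1 hcas.2.1 hcas.2.2 ι) hs0 hs fun g hg =>
            hzero g (inr_fix hej hcas.1 hg) (hN p hcas.1 hcas.2.1 hcas.2.2 ι g hg)
      · obtain ⟨ι, hC⟩ := (hPL F L e 3).1 w hw
        refine (pp_of_near hC hw ?_ hs0 hs (hDEN F L e 3 ι s fun g hg hfix => ?_)).loc a ha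
        · rw [hv3 w hw, exp_le_exp]
          norm_num
        · exact hzero g (hfix j) (hD ι g hg ((hfixI g).2 (hfix j)))
    have hθL : (algebraMap K L (2 * ζ + 1)) ^ 2 = -3 := by rw [← map_pow, hθ, map_neg, map_ofNat]
    have hfin : FiniteDimensional M L := Module.Finite.of_restrictScalars_finite ℚ M L
    exact a5 M L n T.fr (σ : L ≃+* L) T.sq T.comm (by
        intro ξ hξ
        by_cases h1 : ξ = 1
        · rw [h1, map_one]
        · have h3 : ξ ^ 2 + ξ + 1 = 0 := by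
            have : (ξ - 1) * (ξ ^ 2 + ξ + 1) = 0 := by linear_combination hξ
            exact (mul_eq_zero.1 this).resolve_left (sub_ne_zero.2 h1)
          have h4 : (2 * ξ + 1 - algebraMap K L (2 * ζ + 1)) *
              (2 * ξ + 1 + algebraMap K L (2 * ζ + 1)) = 0 := by
            linear_combination 4 * h3 - hθL
          have hσθ : σ (algebraMap K L (2 * ζ + 1)) = algebraMap K L (2 * ζ + 1) := by
            rw [IsScalarTower.algebraMap_apply K F L, AlgEquiv.commutes]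
          have h20 : (2 : L) ≠ 0 := two_ne_zero
          have h5 : (2 : L) * σ ξ = 2 * ξ := by
            have h6 : σ (2 * ξ + 1) = 2 * σ ξ + 1 := by rw [map_add, map_mul, map_ofNat, map_one]
            rcases mul_eq_zero.1 h4 with h | h
            · have h7 : 2 * ξ + 1 = algebraMap K L (2 * ζ + 1) := sub_eq_zero.1 h
              rw [h7, hσθ] at h6
              linear_combination -h6 - h7
            · have h7 : 2 * ξ + 1 = -algebraMap K L (2 * ζ + 1) := eq_neg_of_add_eq_zero_left h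
              rw [h7, map_neg, hσθ] at h6
              linear_combination -h6 - h7
          exact mul_left_cancel₀ h20 h5)
      (fun z => Sel z) (fun a h => h.ne) (fun a h => Sel.cube hv3 h) (fun a b ha hb => ha.mul hb)
      (fun g a h => h.aut (g : L ≃+* L)) (fun a h => h.aut (σ : L ≃+* L))
      (by
        intro m hm hσ
        have h5 : σM m = m⁻¹ := by
          apply (algebraMap M L).injective
          rw [← T.res, map_inv₀]
          exact hσ
        obtain ⟨a, ha⟩ := Pool.Agent.W2helper95.TQ.piece M m (r3 m hm h5)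
        exact ⟨algebraMap M L a, by rw [ha, map_pow]⟩)
      z hsel hcube

end Pool.Agent.W2helper2.RG
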