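import Mathlib
import Pool.Agent.W2helper2.RG.Cur
import Pool.Agent.W2helper2.RG.Res
import Pool.Agent.W2helper2.RG.Main
import Pool.Agent.W2helper9.RG.DEN
import Pool.Agent.W2helper9.RG.KUR
import Pool.Agent.W2helper24.RG.S1
import Pool.Agent.W2helper3.RG.T2
import Pool.Agent.W2helper3.RG.NOS

/-!
# Project RG: the theorem
-/

set_option autoImplicit false

namespace Pool.Agent.W2helper2.RG

open NumberField IsDedekindDomain WeierstrassCurve IntermediateField
open Pool.Agent.W2helper24.TQ
open scoped Classical

/-- PIECE R -/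
theorem piece_R : P_R := res_of Pool.Agent.W2helper89.RG.PL.p_pl Pool.Agent.W2helper9.RG.den
  Pool.Agent.W2helper24.RG.s1 Pool.Agent.W2helper9.RG.kurr

/-- **the theorem** for the subfields `k` of `F` -/
theorem van {K F k : Type} [Field K] [NumberField K] [IsCyclotomicExtension {3} ℚ K]
    [Field F] [NumberField F] [Algebra K F] [IsGalois K F] [Field k] [NumberField k] [Algebra k F]
    {N : ℕ} (hn : Module.finrank K F = 3 ^ N) (hram : Ram K F) : Van k :=
  van_of (K := K) (F := F) piece_R Pool.Agent.W2helper3.RG.t2 Pool.Agent.W2helper3.RG.nos hn hram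

/-- **the theorem** for the number fields contained in `Om` -/
theorem van_om (k : IntermediateField ℚ ℂ) [NumberField k] (hk : k ≤ Om) : Van k := by
  let F0 : IntermediateField ℚ ℂ := k ⊔ Kw
  have hF0 : F0 ≤ Om := sup_le hk kw_le_om
  have f0 : FiniteDimensional ℚ k := inferInstance
  have f3 : FiniteDimensional ℚ F0 := IntermediateField.finiteDimensional_sup _ _
  let F : IntermediateField ℚ ℂ := normalClosure ℚ F0 ℂ
  have hF : F ≤ Om := closure_le hF0
  have hF0F : F0 ≤ F := F0.le_normalClosure
  have f4 : FiniteDimensional ℚ F := normalClosure.is_finiteDimensional ℚ F0 ℂ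
  have nf : NumberField F := ⟨⟩
  have hkF : k ≤ F := le_sup_left.trans hF0F
  have hKF : Kw ≤ F := le_sup_right.trans hF0F
  let : Algebra Kw F := (inclusion hKF).toRingHom.toAlgebra
  let : Algebra k F := (inclusion hkF).toRingHom.toAlgebra
  obtain ⟨g1, ⟨n, hn⟩, c, art, hc, hart⟩ := exists_art E7 hF hKF
  have := g1
  exact van (K := Kw) (F := F) hn (ram_of_art hart hc)

end Pool.Agent.W2helper2.RG
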